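import Mathlib

/-!
# Off-diagonal weakly sigma-point-finite covers: data, good sets, retractions
-/

universe u

open Set Filter Topology

namespace Pool.Agent.H60R3.Gul

/-- A weakly sigma-point-finite cover of the complement of the diagonal. -/
structure Dat (X : Type u) [TopologicalSpace X] where
  J : Type u
  j0 : J
  V : J → Set (X × X)
  V_open : ∀ j, IsOpen (V j)
  N : J → Set ℕ
  h : J → X → ℝ
  h_cont : ∀ j, Continuous (h j)
  h_spec : ∀ j u v, (u, v) ∈ V j → h j u = 0 ∧ h j v = 1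
  cover : ∀ u v, u ≠ v → ∃ j, (u, v) ∈ V j
  fin : ∀ z : X × X, ∀ j, ∃ n ∈ N j, {j' | n ∈ N j' ∧ z ∈ V j'}.Finite

namespace Dat

variable {X : Type u} [TopologicalSpace X] (D : Dat X)

lemma countable_at (z : X × X) : {j | z ∈ D.V j}.Countable := by
  have hsub : {j | z ∈ D.V j} ⊆
      ⋃ n ∈ {n : ℕ | {j' | n ∈ D.N j' ∧ z ∈ D.V j'}.Finite}, {j' | n ∈ D.N j' ∧ z ∈ D.V j'} := by
    intro j hj
    obtain ⟨n, hn, hfin⟩ := D.fin z j
    simp only [mem_iUnion]
    exact ⟨n, hfin, hn, hj⟩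
  refine Set.Countable.mono hsub ?_
  refine Set.Countable.biUnion (Set.to_countable _) ?_
  intro n hn
  exact (hn : Set.Finite _).countable

/-- Indices born in `S`. -/
def JJ (S : Set X) : Set D.J := {j | ∃ a ∈ S, ∃ b ∈ S, (a, b) ∈ D.V j}

lemma JJ_mono {S T : Set X} (h : S ⊆ T) : D.JJ S ⊆ D.JJ T := by
  rintro j ⟨a, ha, b, hb, hab⟩
  exact ⟨a, h ha, b, h hb, hab⟩

lemma mem_JJ_of_closure {S : Set X} {u v : X} {j : D.J} (hu : u ∈ closure S) (hv : v ∈ closure S)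
    (h : (u, v) ∈ D.V j) : j ∈ D.JJ S := by
  have h1 : (u, v) ∈ closure (S ×ˢ S) := by
    rw [closure_prod_eq]; exact ⟨hu, hv⟩
  obtain ⟨p, hp1, hp2⟩ := mem_closure_iff.1 h1 (D.V j) (D.V_open j) h
  exact ⟨p.1, hp2.1, p.2, hp2.2, hp1⟩

/-- Sets for which every point pair is represented in the closure. -/
def Good (S : Set X) : Prop :=
  (∀ a : X, ∃ a' ∈ closure S, ∀ i ∈ D.JJ S, D.h i a' = D.h i a) ∧
  ∀ j ∈ D.JJ S, ∀ a b : X, (a, b) ∉ D.V j →
    ∃ a' ∈ closure S, ∃ b' ∈ closure S, (a', b') ∉ D.V j ∧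
      ∀ i ∈ D.JJ S, D.h i a' = D.h i a ∧ D.h i b' = D.h i b

lemma eq_of_h {S : Set X} {u v : X} (hu : u ∈ closure S) (hv : v ∈ closure S)
    (h : ∀ i ∈ D.JJ S, D.h i u = D.h i v) : u = v := by
  by_contra hne
  obtain ⟨j, hj⟩ := D.cover u v hne
  have hjS := D.mem_JJ_of_closure hu hv hj
  have h1 := D.h_spec j u v hj
  have h2 := h j hjS
  rw [h1.1, h1.2] at h2
  exact zero_ne_one h2

open Classical in
/-- The retraction onto the closure of a good set. -/
noncomputable def r (S : Set X) (x : X) : X :=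
  if h : ∃ a' ∈ closure S, ∀ i ∈ D.JJ S, D.h i a' = D.h i x then h.choose else x

variable {D}

lemma Good.r_mem {S : Set X} (hS : D.Good S) (x : X) : D.r S x ∈ closure S := by
  unfold r
  rw [dif_pos (hS.1 x)]
  exact (hS.1 x).choose_spec.1

lemma Good.h_r {S : Set X} (hS : D.Good S) (x : X) {i : D.J} (hi : i ∈ D.JJ S) :
    D.h i (D.r S x) = D.h i x := by
  unfold r
  rw [dif_pos (hS.1 x)]
  exact (hS.1 x).choose_spec.2 i hi

lemma Good.r_eq {S : Set X} (hS : D.Good S) {x y : X} (hy : y ∈ closure S)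
    (h : ∀ i ∈ D.JJ S, D.h i y = D.h i x) : D.r S x = y :=
  D.eq_of_h (hS.r_mem x) hy fun i hi => by rw [hS.h_r x hi, h i hi]

lemma Good.r_of_mem {S : Set X} (hS : D.Good S) {x : X} (hx : x ∈ closure S) : D.r S x = x :=
  hS.r_eq hx fun _ _ => rfl

lemma Good.r_r {S T : Set X} (hS : D.Good S) (hT : D.Good T) (h : S ⊆ T) (x : X) :
    D.r S (D.r T x) = D.r S x := by
  refine hS.r_eq (hS.r_mem x) fun i hi => ?_
  rw [hS.h_r x hi, hT.h_r x (D.JJ_mono h hi)]

lemma Good.r_r' {S T : Set X} (hS : D.Good S) (hT : D.Good T) (h : S ⊆ T) (x : X) :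
    D.r T (D.r S x) = D.r S x :=
  hT.r_of_mem (closure_mono h (hS.r_mem x))

/-- Saturation. -/
lemma Good.saturated {S : Set X} (hS : D.Good S) {j : D.J} (hj : j ∈ D.JJ S) {a b : X}
    (h : (D.r S a, D.r S b) ∈ D.V j) : (a, b) ∈ D.V j := by
  by_contra hcon
  obtain ⟨a', ha', b', hb', hab, hh⟩ := hS.2 j hj a b hcon
  have h1 : D.r S a = a' := hS.r_eq ha' fun i hi => (hh i hi).1
  have h2 : D.r S b = b' := hS.r_eq hb' fun i hi => (hh i hi).2
  rw [h1, h2] at h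
  exact hab h

lemma Good.r_cont [CompactSpace X] [T2Space X] {S : Set X} (hS : D.Good S) :
    Continuous (D.r S) := by
  have hgr : IsClosed {p : X × X | p.2 ∈ closure S ∧ ∀ i ∈ D.JJ S, D.h i p.2 = D.h i p.1} := by
    refine IsClosed.inter (isClosed_closure.preimage continuous_snd) ?_
    have : {p : X × X | ∀ i ∈ D.JJ S, D.h i p.2 = D.h i p.1} =
        ⋂ i ∈ D.JJ S, {p : X × X | D.h i p.2 = D.h i p.1} := by
      ext p; simp
    change IsClosed {p : X × X | ∀ i ∈ D.JJ S, D.h i p.2 = D.h i p.1}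
    rw [this]
    refine isClosed_biInter fun i _ => ?_
    exact isClosed_eq ((D.h_cont i).comp continuous_snd) ((D.h_cont i).comp continuous_fst)
  rw [continuous_iff_isClosed]
  intro C hC
  have : D.r S ⁻¹' C = Prod.fst '' ({p : X × X | p.2 ∈ closure S ∧
      ∀ i ∈ D.JJ S, D.h i p.2 = D.h i p.1} ∩ Prod.snd ⁻¹' C) := by
    ext x
    constructor
    · intro hx
      exact ⟨(x, D.r S x), ⟨⟨hS.r_mem x, fun i hi => hS.h_r x hi⟩, hx⟩, rfl⟩
    · rintro ⟨⟨x', y⟩, ⟨⟨h1, h2⟩, h3⟩, rfl⟩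
      have : D.r S x' = y := hS.r_eq h1 h2
      change D.r S x' ∈ C
      rw [this]; exact h3
  rw [this]
  exact isClosedMap_fst_of_compactSpace _ (hgr.inter (hC.preimage continuous_snd))

/-- Limits along directed unions. -/
lemma Good.r_limit [CompactSpace X] {ι : Type*} [Nonempty ι] {S : Set X} (hS : D.Good S)
    (T : ι → Set X) (hT : ∀ i, D.Good (T i)) (hdir : Directed (· ⊆ ·) T) (hU : ∀ i, T i ⊆ S)
    (hcov : ∀ x ∈ S, ∃ i, x ∈ T i) {O : Set X} (hO : IsOpen O) {x : X} (hx : D.r S x ∈ O) :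
    ∃ i, D.r (T i) x ∈ O := by
  by_contra hcon
  push Not at hcon
  let C : ι → Set X := fun i =>
    {y | y ∈ closure S ∧ y ∉ O ∧ ∀ j ∈ D.JJ (T i), D.h j y = D.h j x}
  have hCc : ∀ i, IsClosed (C i) := by
    intro i
    refine IsClosed.inter isClosed_closure (IsClosed.inter hO.isClosed_compl ?_)
    have : {y : X | ∀ j ∈ D.JJ (T i), D.h j y = D.h j x} =
        ⋂ j ∈ D.JJ (T i), {y : X | D.h j y = D.h j x} := by
      ext p; simp
    change IsClosed {y : X | ∀ j ∈ D.JJ (T i), D.h j y = D.h j x}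
    rw [this]
    exact isClosed_biInter fun j _ => isClosed_eq (D.h_cont j) continuous_const
  have hne : (⋂ i, C i).Nonempty := by
    refine IsCompact.nonempty_iInter_of_directed_nonempty_isCompact_isClosed C ?_ ?_
      (fun i => (hCc i).isCompact) hCc
    · intro i j
      obtain ⟨k, hk1, hk2⟩ := hdir i j
      refine ⟨k, ?_, ?_⟩
      · rintro y ⟨h1, h2, h3⟩
        exact ⟨h1, h2, fun l hl => h3 l (D.JJ_mono hk1 hl)⟩
      · rintro y ⟨h1, h2, h3⟩
        exact ⟨h1, h2, fun l hl => h3 l (D.JJ_mono hk2 hl)⟩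
    · intro i
      exact ⟨D.r (T i) x, closure_mono (hU i) ((hT i).r_mem x), hcon i,
        fun j hj => (hT i).h_r x hj⟩
  obtain ⟨y, hy⟩ := hne
  rw [mem_iInter] at hy
  have h1 : D.r S x = y := by
    refine hS.r_eq (hy (Classical.arbitrary ι)).1 fun j hj => ?_
    obtain ⟨a, ha, b, hb, hab⟩ := hj
    obtain ⟨i1, hi1⟩ := hcov a ha
    obtain ⟨i2, hi2⟩ := hcov b hb
    obtain ⟨k, hk1, hk2⟩ := hdir i1 i2
    exact (hy k).2.2 j ⟨a, hk1 hi1, b, hk2 hi2, hab⟩
  exact (hy (Classical.arbitrary ι)).2.1 (h1 ▸ hx)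

end Dat

end Pool.Agent.H60R3.Gul
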