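import Mathlib

/-!
# Countably determined subsets and Lindelof Sigma spaces
-/

universe u

open Set Filter Topology

namespace Pool.Agent.H60R3.Gul

/-- Lindelof Sigma-spaces: a countable network modulo a compact cover. -/
def LindelofSigma (Y : Type u) [TopologicalSpace Y] : Prop :=
  ∃ (𝒩 : Set (Set Y)) (𝒞 : Set (Set Y)), 𝒩.Countable ∧ (∀ K ∈ 𝒞, IsCompact K) ∧
    ⋃₀ 𝒞 = Set.univ ∧ ∀ K ∈ 𝒞, ∀ U : Set Y, IsOpen U → K ⊆ U → ∃ M ∈ 𝒩, K ⊆ M ∧ M ⊆ U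

/-- Countably determined subsets. -/
def CD {Z : Type u} [TopologicalSpace Z] (S : Set Z) : Prop :=
  ∃ 𝒞 : Set (Set Z), 𝒞.Countable ∧ (∀ C ∈ 𝒞, IsCompact C) ∧
    (∀ C ∈ 𝒞, ∀ C' ∈ 𝒞, C ∩ C' ∈ 𝒞) ∧
    ∀ s ∈ S, (∃ C ∈ 𝒞, s ∈ C) ∧ ∀ z, (∀ C ∈ 𝒞, s ∈ C → z ∈ C) → z ∈ S

variable {Z : Type u} [TopologicalSpace Z] [T2Space Z]

lemma CD.mk' {S : Set Z} (𝒞 : Set (Set Z)) (hc : 𝒞.Countable) (hK : ∀ C ∈ 𝒞, IsCompact C)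
    (h : ∀ s ∈ S, (∃ C ∈ 𝒞, s ∈ C) ∧ ∀ z, (∀ C ∈ 𝒞, s ∈ C → z ∈ C) → z ∈ S) : CD S := by
  refine ⟨(fun F => ⋂₀ F) '' {F | (F.Finite ∧ F ⊆ 𝒞) ∧ F.Nonempty}, ?_, ?_, ?_, ?_⟩
  · refine Set.Countable.image (Set.Countable.mono ?_ (Set.countable_ofPred_finite_subset hc)) _
    intro F hF
    exact hF.1
  · rintro _ ⟨F, ⟨⟨h1, h2⟩, C, hC⟩, rfl⟩
    refine (hK C (h2 hC)).of_isClosed_subset ?_ (sInter_subset_of_mem hC)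
    exact isClosed_sInter fun D hD => (hK D (h2 hD)).isClosed
  · rintro _ ⟨F, ⟨⟨h1, h2⟩, h3⟩, rfl⟩ _ ⟨F', ⟨⟨h1', h2'⟩, h3'⟩, rfl⟩
    refine ⟨F ∪ F', ⟨⟨h1.union h1', union_subset h2 h2'⟩, h3.inl⟩, ?_⟩
    exact sInter_union F F'
  · intro s hs
    obtain ⟨⟨C, hC, hsC⟩, h2⟩ := h s hs
    refine ⟨⟨C, ⟨{C}, ⟨⟨Set.finite_singleton _, by simpa using hC⟩, ⟨C, rfl⟩⟩, by simp⟩, hsC⟩, ?_⟩
    intro z hz
    refine h2 z fun D hD hsD => ?_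
    exact hz D ⟨{D}, ⟨⟨Set.finite_singleton _, by simpa using hD⟩, ⟨D, rfl⟩⟩, by simp⟩ hsD

lemma CD.of_compact {K : Set Z} (hK : IsCompact K) : CD K := by
  refine CD.mk' {K} (Set.countable_singleton _) (by simpa using hK) ?_
  intro s hs
  refine ⟨⟨K, rfl, hs⟩, fun z hz => hz K rfl hs⟩

lemma CD.iUnion {S : ℕ → Set Z} (h : ∀ n, CD (S n)) : CD (⋃ n, S n) := by
  choose 𝒞 h1 h2 h3 h4 using h
  refine CD.mk' (⋃ n, 𝒞 n) (Set.countable_iUnion h1) ?_ ?_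
  · intro C hC
    obtain ⟨n, hn⟩ := mem_iUnion.1 hC
    exact h2 n C hn
  · intro s hs
    obtain ⟨n, hn⟩ := mem_iUnion.1 hs
    obtain ⟨⟨C, hC, hsC⟩, h5⟩ := h4 n s hn
    refine ⟨⟨C, mem_iUnion.2 ⟨n, hC⟩, hsC⟩, fun z hz => mem_iUnion.2 ⟨n, h5 z ?_⟩⟩
    intro D hD hsD
    exact hz D (mem_iUnion.2 ⟨n, hD⟩) hsD

lemma CD.union {S T : Set Z} (hS : CD S) (hT : CD T) : CD (S ∪ T) := by
  have : S ∪ T = ⋃ n : ℕ, (if n = 0 then S else T) := by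
    ext z
    simp only [mem_union, mem_iUnion]
    constructor
    · rintro (h | h)
      · exact ⟨0, by simpa using h⟩
      · exact ⟨1, by simpa using h⟩
    · rintro ⟨n, hn⟩
      by_cases h0 : n = 0
      · simp only [h0, if_true] at hn; exact Or.inl hn
      · simp only [h0, if_false] at hn; exact Or.inr hn
  rw [this]
  refine CD.iUnion fun n => ?_
  by_cases h0 : n = 0
  · simpa [h0] using hS
  · simpa [h0] using hT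

lemma CD.iInter {S : ℕ → Set Z} (h : ∀ n, CD (S n)) : CD (⋂ n, S n) := by
  choose 𝒞 h1 h2 h3 h4 using h
  refine CD.mk' (⋃ n, 𝒞 n) (Set.countable_iUnion h1) ?_ ?_
  · intro C hC
    obtain ⟨n, hn⟩ := mem_iUnion.1 hC
    exact h2 n C hn
  · intro s hs
    rw [mem_iInter] at hs
    obtain ⟨⟨C, hC, hsC⟩, h5⟩ := h4 0 s (hs 0)
    refine ⟨⟨C, mem_iUnion.2 ⟨0, hC⟩, hsC⟩, fun z hz => mem_iInter.2 fun n => ?_⟩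
    refine (h4 n s (hs n)).2 z fun D hD hsD => ?_
    exact hz D (mem_iUnion.2 ⟨n, hD⟩) hsD

lemma CD.image2 {f : Z → Z → Z} (hf : Continuous fun p : Z × Z => f p.1 p.2) {S T : Set Z}
    (hS : CD S) (hT : CD T) : CD (Set.image2 f S T) := by
  obtain ⟨𝒞, a1, a2, a3, a4⟩ := hS
  obtain ⟨𝒟, b1, b2, b3, b4⟩ := hT
  refine CD.mk' (Set.image2 (fun C D => Set.image2 f C D) 𝒞 𝒟) (a1.image2 b1 _) ?_ ?_
  · rintro _ ⟨C, hC, D, hD, rfl⟩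
    have := ((a2 C hC).prod (b2 D hD)).image hf
    have h2 : (fun p : Z × Z => f p.1 p.2) '' (C ×ˢ D) = Set.image2 f C D :=
      Set.image_prod f
    simpa only [h2] using this
  · rintro _ ⟨s, hs, t, ht, rfl⟩
    obtain ⟨⟨C0, hC0, hsC0⟩, a5⟩ := a4 s hs
    obtain ⟨⟨D0, hD0, htD0⟩, b5⟩ := b4 t ht
    refine ⟨⟨_, ⟨C0, hC0, D0, hD0, rfl⟩, ⟨s, hsC0, t, htD0, rfl⟩⟩, ?_⟩
    intro z hz
    let ι := {P : Set Z × Set Z // (P.1 ∈ 𝒞 ∧ s ∈ P.1) ∧ (P.2 ∈ 𝒟 ∧ t ∈ P.2)}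
    have : Nonempty ι := ⟨⟨(C0, D0), ⟨hC0, hsC0⟩, ⟨hD0, htD0⟩⟩⟩
    let A : ι → Set (Z × Z) := fun P => (P.1.1 ×ˢ P.1.2) ∩ {q | f q.1 q.2 = z}
    have hcl : IsClosed {q : Z × Z | f q.1 q.2 = z} := isClosed_eq hf continuous_const
    have hAc : ∀ P, IsCompact (A P) := fun P =>
      ((a2 _ P.2.1.1).prod (b2 _ P.2.2.1)).inter_right hcl
    have hne : (⋂ P, A P).Nonempty := by
      refine IsCompact.nonempty_iInter_of_directed_nonempty_isCompact_isClosed A ?_ ?_ hAc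
        (fun P => (hAc P).isClosed)
      · intro P Q
        refine ⟨⟨(P.1.1 ∩ Q.1.1, P.1.2 ∩ Q.1.2), ⟨a3 _ P.2.1.1 _ Q.2.1.1, P.2.1.2, Q.2.1.2⟩,
          ⟨b3 _ P.2.2.1 _ Q.2.2.1, P.2.2.2, Q.2.2.2⟩⟩, ?_, ?_⟩
        · rintro q ⟨⟨h1, h2⟩, h3⟩
          exact ⟨⟨h1.1, h2.1⟩, h3⟩
        · rintro q ⟨⟨h1, h2⟩, h3⟩
          exact ⟨⟨h1.2, h2.2⟩, h3⟩
      · rintro ⟨⟨C, D⟩, ⟨hC, hsC⟩, ⟨hD, htD⟩⟩
        obtain ⟨c, hc, d, hd, hcd⟩ := hz _ ⟨C, hC, D, hD, rfl⟩ ⟨s, hsC, t, htD, rfl⟩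
        exact ⟨(c, d), ⟨hc, hd⟩, hcd⟩
    obtain ⟨q, hq⟩ := hne
    rw [mem_iInter] at hq
    refine ⟨q.1, a5 _ fun C hC hsC => ?_, q.2, b5 _ fun D hD htD => ?_, (hq ⟨(C0, D0), ⟨hC0, hsC0⟩, ⟨hD0, htD0⟩⟩).2⟩
    · exact (hq ⟨(C, D0), ⟨hC, hsC⟩, ⟨hD0, htD0⟩⟩).1.1
    · exact (hq ⟨(C0, D), ⟨hC0, hsC0⟩, ⟨hD, htD⟩⟩).1.2

lemma CD.lindelofSigma {S : Set Z} (hS : CD S) : LindelofSigma ↥S := by
  obtain ⟨𝒞, a1, a2, a3, a4⟩ := hS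
  let Ks : ↥S → Set ↥S := fun s => {s' | ∀ C ∈ 𝒞, (s : Z) ∈ C → (s' : Z) ∈ C}
  have hval : ∀ s : ↥S, Subtype.val '' Ks s = {z | ∀ C ∈ 𝒞, (s : Z) ∈ C → z ∈ C} := by
    intro s
    ext z
    constructor
    · rintro ⟨s', hs', rfl⟩; exact hs'
    · intro hz
      exact ⟨⟨z, (a4 s s.2).2 z hz⟩, hz, rfl⟩
  have hclosed : ∀ s : ↥S, IsClosed {z | ∀ C ∈ 𝒞, (s : Z) ∈ C → z ∈ C} := by
    intro s
    have : {z | ∀ C ∈ 𝒞, (s : Z) ∈ C → z ∈ C} = ⋂ C ∈ {C | C ∈ 𝒞 ∧ (s : Z) ∈ C}, C := by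
      ext z; simp
    rw [this]
    exact isClosed_biInter fun C hC => (a2 C hC.1).isClosed
  refine ⟨(fun C => Subtype.val ⁻¹' C) '' 𝒞, range Ks, a1.image _, ?_, ?_, ?_⟩
  · rintro _ ⟨s, rfl⟩
    rw [Subtype.isCompact_iff, hval]
    obtain ⟨C, hC, hsC⟩ := (a4 s s.2).1
    exact (a2 C hC).of_isClosed_subset (hclosed s) fun z hz => hz C hC hsC
  · refine eq_univ_of_forall fun s => ?_
    exact ⟨Ks s, ⟨s, rfl⟩, fun C _ h => h⟩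
  · rintro _ ⟨s, rfl⟩ U hU hKU
    obtain ⟨O, hO, rfl⟩ := isOpen_induced_iff.1 hU
    obtain ⟨C0, hC0, hsC0⟩ := (a4 s s.2).1
    let ι := {C : Set Z // C ∈ 𝒞 ∧ (s : Z) ∈ C}
    have : Nonempty ι := ⟨⟨C0, hC0, hsC0⟩⟩
    have hex : ∃ C : ι, C.1 ∩ Oᶜ = ∅ := by
      by_contra hcon
      push Not at hcon
      have hne : (⋂ C : ι, C.1 ∩ Oᶜ).Nonempty := by
        refine IsCompact.nonempty_iInter_of_directed_nonempty_isCompact_isClosed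
          (fun C : ι => C.1 ∩ Oᶜ) ?_ (fun C => hcon C)
          (fun C => (a2 _ C.2.1).inter_right hO.isClosed_compl)
          (fun C => ((a2 _ C.2.1).inter_right hO.isClosed_compl).isClosed)
        intro C D
        refine ⟨⟨C.1 ∩ D.1, a3 _ C.2.1 _ D.2.1, C.2.2, D.2.2⟩, ?_, ?_⟩
        · rintro q ⟨h1, h2⟩; exact ⟨h1.1, h2⟩
        · rintro q ⟨h1, h2⟩; exact ⟨h1.2, h2⟩
      obtain ⟨z, hz⟩ := hne
      rw [mem_iInter] at hz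
      have h1 : ∀ C ∈ 𝒞, (s : Z) ∈ C → z ∈ C := fun C hC hsC => (hz ⟨C, hC, hsC⟩).1
      have h2 : z ∈ S := (a4 s s.2).2 z h1
      exact (hz ⟨C0, hC0, hsC0⟩).2 (hKU (show (⟨z, h2⟩ : ↥S) ∈ Ks s from h1))
    obtain ⟨C, hC⟩ := hex
    refine ⟨Subtype.val ⁻¹' C.1, ⟨C.1, C.2.1, rfl⟩, fun s' hs' => hs' C.1 C.2.1 C.2.2, ?_⟩
    intro s' hs'
    by_contra hcon
    have : (s' : Z) ∈ C.1 ∩ Oᶜ := ⟨hs', hcon⟩
    rw [hC] at this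
    exact this

end Pool.Agent.H60R3.Gul
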