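import Mathlib

/-!
# Labelled families of continuous functions and their refinements
-/

universe u v

open Set Filter Topology

namespace Pool.Agent.H60R3.Gul

/-- A labelled family: weak sigma-point-finiteness of the cozero sets with labels of a
fixed kind. -/
structure LF (X : Type v) [TopologicalSpace X] {J : Type u} (N : J → Set ℕ) where
  I : Type u
  g : I → X → ℝ
  g_cont : ∀ i, Continuous (g i)
  tag : I → ℕ
  lab : I → ℕ → J
  fin : ∀ (x : X) (t : ℕ) (L : ℕ → J), ∃ F : Finset (ℕ × ℕ), (∀ p ∈ F, p.2 ∈ N (L p.1)) ∧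
    {i | tag i = t ∧ (∀ p ∈ F, p.2 ∈ N (lab i p.1)) ∧ g i x ≠ 0}.Finite

lemma finite_lists {α : Type*} (n : ℕ) (B : ℕ → Set α) (hB : ∀ l, (B l).Finite) :
    {ℓ : List α | ℓ.length = n ∧ ∀ l a, ℓ[l]? = some a → a ∈ B l}.Finite := by
  induction n generalizing B with
  | zero =>
    refine (Set.finite_singleton ([] : List α)).subset ?_
    rintro ℓ ⟨h1, -⟩
    exact List.length_eq_zero_iff.1 h1
  | succ n ih =>
    refine ((hB 0).image2 List.cons (ih (fun l => B (l + 1)) fun l => hB _)).subset ?_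
    rintro ℓ ⟨h1, h2⟩
    cases ℓ with
    | nil => simp at h1
    | cons a ℓ =>
      refine ⟨a, h2 0 a (by simp), ℓ, ⟨by simpa using h1, fun l b hb => ?_⟩, rfl⟩
      exact h2 (l + 1) b (by simpa using hb)

namespace LF

variable {X : Type v} [TopologicalSpace X] {J : Type u} {N : J → Set ℕ}

/-- Abbreviation for the raw keys. -/
abbrev Key (I : Type u) := Finset (ℕ × Finset (ℕ × ℕ)) × ℕ × List (I × ℚ)

/-- Refinement of a family of basic open sets by a labelled family. -/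
theorem refine (𝓕 : LF X N) (j0 : J) (𝒪 : Set (Set X))
    (h : ∀ O ∈ 𝒪, ∀ x ∈ O, ∃ E : Finset 𝓕.I, ∃ ε > (0 : ℝ), ∀ y,
      (∀ e ∈ E, |𝓕.g e y - 𝓕.g e x| < ε) → y ∈ O) :
    ∃ 𝓖 : LF X N, (∀ κ, ∃ O ∈ 𝒪, ∀ y, 𝓖.g κ y ≠ 0 → y ∈ O) ∧
      (∀ O ∈ 𝒪, ∀ x ∈ O, ∃ κ, 𝓖.g κ x ≠ 0) ∧
      ∀ r : X → X, (∀ i x, 𝓕.g i (r x) = 𝓕.g i x) → ∀ κ x, 𝓖.g κ (r x) = 𝓖.g κ x := by
  classical
  have h' : ∀ x : ↥(⋃₀ 𝒪), ∃ O ∈ 𝒪, ∃ E : Finset 𝓕.I, ∃ ε > (0 : ℝ), ∀ y,
      (∀ e ∈ E, |𝓕.g e y - 𝓕.g e x| < ε) → y ∈ O := by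
    rintro ⟨x, O, hO, hx⟩
    obtain ⟨E, ε, hε, hy⟩ := h O hO x hx
    exact ⟨O, hO, E, ε, hε, hy⟩
  choose O hO E ε hε hOE using h'
  have hF : ∀ (x : X) (i : 𝓕.I), ∃ F : Finset (ℕ × ℕ), (∀ p ∈ F, p.2 ∈ N (𝓕.lab i p.1)) ∧
      {k | 𝓕.tag k = 𝓕.tag i ∧ (∀ p ∈ F, p.2 ∈ N (𝓕.lab k p.1)) ∧ 𝓕.g k x ≠ 0}.Finite :=
    fun x i => 𝓕.fin x (𝓕.tag i) (𝓕.lab i)
  choose F hF1 hF2 using hF
  let 𝒯 : ↥(⋃₀ 𝒪) → Finset (ℕ × Finset (ℕ × ℕ)) :=
    fun x => (E x).image fun e => (𝓕.tag e, F x e)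
  have hA : ∀ x : ↥(⋃₀ 𝒪), ∃ A : Finset 𝓕.I, ∀ i, i ∈ A ↔
      ∃ p ∈ 𝒯 x, 𝓕.tag i = p.1 ∧ (∀ q ∈ p.2, q.2 ∈ N (𝓕.lab i q.1)) ∧ 𝓕.g i x ≠ 0 := by
    intro x
    have : {i | ∃ p ∈ 𝒯 x, 𝓕.tag i = p.1 ∧ (∀ q ∈ p.2, q.2 ∈ N (𝓕.lab i q.1)) ∧
        𝓕.g i x ≠ 0}.Finite := by
      have hsub : {i | ∃ p ∈ 𝒯 x, 𝓕.tag i = p.1 ∧ (∀ q ∈ p.2, q.2 ∈ N (𝓕.lab i q.1)) ∧
          𝓕.g i x ≠ 0} ⊆ ⋃ e ∈ (E x), {k | 𝓕.tag k = 𝓕.tag e ∧
            (∀ p ∈ F x e, p.2 ∈ N (𝓕.lab k p.1)) ∧ 𝓕.g k x ≠ 0} := by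
        rintro i ⟨p, hp, h1, h2, h3⟩
        obtain ⟨e, he, rfl⟩ := Finset.mem_image.1 hp
        simp only [mem_iUnion]
        exact ⟨e, he, h1, h2, h3⟩
      refine Set.Finite.subset ?_ hsub
      exact Set.Finite.biUnion (Finset.finite_toSet _) fun e _ => hF2 x e
    exact ⟨this.toFinset, fun i => by rw [Set.Finite.mem_toFinset]; rfl⟩
  choose A hA using hA
  have hm : ∀ x : ↥(⋃₀ 𝒪), ∃ m : ℕ, 2 / ((m : ℝ) + 1) ≤ ε x ∧
      ∀ i ∈ A x, 2 / ((m : ℝ) + 1) < |𝓕.g i x| := by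
    intro x
    have hpos : ∃ η > (0 : ℝ), η ≤ ε x ∧ ∀ i ∈ A x, η < |𝓕.g i x| := by
      have h1 : ∀ B : Finset 𝓕.I, (∀ i ∈ B, 𝓕.g i x ≠ 0) →
          ∃ η > (0 : ℝ), η ≤ ε x ∧ ∀ i ∈ B, η < |𝓕.g i x| := by
        intro B
        induction B using Finset.induction_on with
        | empty => intro _; exact ⟨ε x, hε x, le_rfl, by simp⟩
        | insert b B hb ih =>
          intro hB
          obtain ⟨η, h1, h2, h3⟩ := ih fun i hi => hB i (Finset.mem_insert_of_mem hi)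
          have hb0 : 0 < |𝓕.g b x| := abs_pos.2 (hB b (Finset.mem_insert_self _ _))
          refine ⟨min η (|𝓕.g b x| / 2), by positivity, (min_le_left _ _).trans h2, ?_⟩
          intro i hi
          rcases Finset.mem_insert.1 hi with rfl | hi
          · exact (min_le_right _ _).trans_lt (by linarith)
          · exact (min_le_left _ _).trans_lt (h3 i hi)
      refine h1 (A x) fun i hi => ?_
      obtain ⟨p, -, -, -, h4⟩ := (hA x i).1 hi
      exact h4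
    obtain ⟨η, h1, h2, h3⟩ := hpos
    obtain ⟨m, hm⟩ := exists_nat_gt (2 / η)
    have hlt : 2 / ((m : ℝ) + 1) < η := by
      rw [div_lt_iff₀ (by positivity)]
      rw [div_lt_iff₀ h1] at hm
      nlinarith
    exact ⟨m, hlt.le.trans h2, fun i hi => hlt.trans (h3 i hi)⟩
  choose m hm1 hm2 using hm
  have hp : ∀ (x : ↥(⋃₀ 𝒪)) (i : 𝓕.I), ∃ p : ℚ, |𝓕.g i x - p| < 1 / ((m x : ℝ) + 1) := by
    intro x i
    have hδ : (0 : ℝ) < 1 / ((m x : ℝ) + 1) := by positivity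
    obtain ⟨c, h1, h2⟩ := exists_rat_btwn
      (show 𝓕.g i x - 1 / ((m x : ℝ) + 1) < 𝓕.g i x by linarith)
    exact ⟨c, by rw [abs_lt]; constructor <;> linarith⟩
  choose p hp using hp
  let key : ↥(⋃₀ 𝒪) → Key 𝓕.I := fun x => (𝒯 x, m x, (A x).toList.map fun i => (i, p x i))
  let I' := {κ : Key 𝓕.I // ∃ x, key x = κ}
  let rep : I' → ↥(⋃₀ 𝒪) := fun κ => κ.2.choose
  have hrep : ∀ κ : I', key (rep κ) = κ.1 := fun κ => κ.2.choose_spec
  let w : I' → X → ℝ := fun κ y =>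
    (κ.1.2.2.map fun a => max 0 (1 / ((κ.1.2.1 : ℝ) + 1) - |𝓕.g a.1 y - a.2|)).prod *
      ∏ e ∈ E (rep κ) \ A (rep κ), max 0 (1 / ((κ.1.2.1 : ℝ) + 1) - |𝓕.g e y|)
  have hw1 : ∀ κ y, w κ y ≠ 0 → (∀ a ∈ κ.1.2.2, |𝓕.g a.1 y - a.2| < 1 / ((κ.1.2.1 : ℝ) + 1)) ∧
      ∀ e ∈ E (rep κ) \ A (rep κ), |𝓕.g e y| < 1 / ((κ.1.2.1 : ℝ) + 1) := by
    intro κ y hy
    have h1 := mul_ne_zero_iff.1 hy
    constructor
    · intro a ha
      by_contra hcon
      push Not at hcon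
      apply h1.1
      rw [List.prod_eq_zero_iff]
      refine List.mem_map.2 ⟨a, ha, ?_⟩
      exact max_eq_left (by linarith)
    · intro e he
      by_contra hcon
      push Not at hcon
      apply h1.2
      exact Finset.prod_eq_zero he (max_eq_left (by linarith))
  have hw2 : ∀ κ y, (∀ a ∈ κ.1.2.2, |𝓕.g a.1 y - a.2| < 1 / ((κ.1.2.1 : ℝ) + 1)) →
      (∀ e ∈ E (rep κ) \ A (rep κ), |𝓕.g e y| < 1 / ((κ.1.2.1 : ℝ) + 1)) → w κ y ≠ 0 := by
    intro κ y h1 h2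
    refine mul_ne_zero ?_ ?_
    · intro hcon
      rw [List.prod_eq_zero_iff] at hcon
      obtain ⟨a, ha, h3⟩ := List.mem_map.1 hcon
      have := h1 a ha
      rw [max_eq_right (by linarith)] at h3
      linarith
    · rw [Finset.prod_ne_zero_iff]
      intro e he
      have := h2 e he
      rw [max_eq_right (by linarith)]
      exact ne_of_gt (by linarith)
  have hkey : ∀ (x : ↥(⋃₀ 𝒪)) a, a ∈ (key x).2.2 → a.1 ∈ A x ∧ a.2 = p x a.1 := by
    intro x a ha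
    obtain ⟨i, hi, rfl⟩ := List.mem_map.1 ha
    exact ⟨Finset.mem_toList.1 hi, rfl⟩
  have hkeyA : ∀ x y : ↥(⋃₀ 𝒪), key x = key y → A x = A y := by
    intro x y hxy
    have h1 : (key x).2.2.map Prod.fst = (key y).2.2.map Prod.fst := by rw [hxy]
    have h2 : ∀ z : ↥(⋃₀ 𝒪), (key z).2.2.map Prod.fst = (A z).toList := by
      intro z
      change List.map Prod.fst ((A z).toList.map fun i => (i, p z i)) = _
      rw [List.map_map]
      have : (Prod.fst ∘ fun i => (i, p z i)) = (id : 𝓕.I → 𝓕.I) := rfl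
      rw [this, List.map_id]
    rw [h2, h2] at h1
    ext i
    rw [← Finset.mem_toList, h1, Finset.mem_toList]
  have hnz : ∀ κ : I', ∀ a ∈ κ.1.2.2, 1 / ((κ.1.2.1 : ℝ) + 1) < |(a.2 : ℝ)| := by
    intro κ a ha
    rw [← hrep κ] at ha ⊢
    obtain ⟨h1, h2⟩ := hkey _ a ha
    have h3 := hm2 (rep κ) a.1 h1
    have h4 := hp (rep κ) a.1
    rw [← h2] at h4
    change 1 / ((m (rep κ) : ℝ) + 1) < |(a.2 : ℝ)|
    have h5 : (2 : ℝ) / ((m (rep κ) : ℝ) + 1) =
      1 / ((m (rep κ) : ℝ) + 1) + 1 / ((m (rep κ) : ℝ) + 1) := by ring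
    have h6 : |𝓕.g a.1 (rep κ)| ≤ |𝓕.g a.1 (rep κ) - a.2| + |(a.2 : ℝ)| := by
      have := abs_add_le (𝓕.g a.1 (rep κ) - a.2) (a.2 : ℝ)
      simpa using this
    linarith
  have hwc : ∀ κ, Continuous (w κ) := by
    intro κ
    refine Continuous.mul ?_ ?_
    · refine continuous_list_prod _ fun a _ => ?_
      exact continuous_const.max (continuous_const.sub
        (((𝓕.g_cont a.1).sub continuous_const).abs))
    · refine continuous_finsetProd _ fun e _ => ?_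
      exact continuous_const.max (continuous_const.sub ((𝓕.g_cont e).abs))
  let code : I' → Finset (ℕ × Finset (ℕ × ℕ)) × ℕ × List (ℕ × ℚ) :=
    fun κ => (κ.1.1, κ.1.2.1, κ.1.2.2.map fun a => (𝓕.tag a.1, a.2))
  let lab' : I' → ℕ → J := fun κ n =>
    (κ.1.2.2[(Nat.unpair n).1]?.map fun a => 𝓕.lab a.1 (Nat.unpair n).2).getD j0
  refine ⟨⟨I', w, hwc, fun κ => Encodable.encode (code κ), lab', ?_⟩, ?_, ?_, ?_⟩
  · intro x t L
    by_cases hne : ∃ κ0 : I', Encodable.encode (code κ0) = t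
    swap
    · refine ⟨∅, by simp, ?_⟩
      refine Set.Finite.subset Set.finite_empty ?_
      rintro κ ⟨h1, -⟩
      exact hne ⟨κ, h1⟩
    obtain ⟨κ0, hκ0⟩ := hne
    let ts : List (ℕ × ℚ) := (code κ0).2.2
    let tl : ℕ → ℕ := fun l => (ts[l]?.map Prod.fst).getD 0
    let ql : ℕ → ℚ := fun l => (ts[l]?.map Prod.snd).getD 0
    have hFl := fun l => 𝓕.fin x (tl l) (fun k => L (Nat.pair l k))
    choose Fl hFl1 hFl2 using hFl
    refine ⟨(Finset.range ts.length).biUnion fun l =>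
      (Fl l).image fun p => (Nat.pair l p.1, p.2), ?_, ?_⟩
    · intro q hq
      simp only [Finset.mem_biUnion, Finset.mem_range, Finset.mem_image] at hq
      obtain ⟨l, -, p', hp', rfl⟩ := hq
      exact hFl1 l p' hp'
    · let B : ℕ → Set (𝓕.I × ℚ) := fun l =>
        (fun i => (i, ql l)) '' {i | 𝓕.tag i = tl l ∧
          (∀ p ∈ Fl l, p.2 ∈ N (𝓕.lab i p.1)) ∧ 𝓕.g i x ≠ 0}
      have hBf := finite_lists ts.length B fun l => (hFl2 l).image _
      refine Set.Finite.of_finite_image (f := fun κ : I' => κ.1.2.2) ?_ ?_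
      · refine hBf.subset ?_
        rintro _ ⟨κ, ⟨h1, h2, h3⟩, rfl⟩
        have hcode : code κ = code κ0 := Encodable.encode_injective (h1.trans hκ0.symm)
        have hts : (κ.1.2.2.map fun a => (𝓕.tag a.1, a.2)) = ts :=
          congrArg (fun c => c.2.2) hcode
        have hlen : κ.1.2.2.length = ts.length := by rw [← hts, List.length_map]
        refine ⟨hlen, fun l a ha => ?_⟩
        have h4 : ts[l]? = some (𝓕.tag a.1, a.2) := by
          rw [← hts, List.getElem?_map, ha]; rfl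
        have h5 : tl l = 𝓕.tag a.1 := by simp [tl, h4]
        have h6 : ql l = a.2 := by simp [ql, h4]
        have hl : l < ts.length := by
          by_contra hcon
          push Not at hcon
          rw [List.getElem?_eq_none hcon] at h4
          exact absurd h4 (by simp)
        refine ⟨a.1, ⟨h5.symm, ?_, ?_⟩, by rw [h6]⟩
        · intro q hq
          have h7 := h2 (Nat.pair l q.1, q.2) (by
            simp only [Finset.mem_biUnion, Finset.mem_range, Finset.mem_image]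
            exact ⟨l, hl, q, hq, rfl⟩)
          have h8 : lab' κ (Nat.pair l q.1) = 𝓕.lab a.1 q.1 := by
            simp [lab', ha]
          rw [h8] at h7
          exact h7
        · have h9 := (hw1 κ x h3).1 a (List.mem_of_getElem? ha)
          have h10 := hnz κ a (List.mem_of_getElem? ha)
          intro h11
          rw [h11, zero_sub, abs_neg] at h9
          linarith
      · rintro κ ⟨h1, -, -⟩ κ' ⟨h1', -, -⟩ heq
        have hcode : code κ = code κ' := Encodable.encode_injective (h1.trans h1'.symm)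
        apply Subtype.ext
        have e1 : κ.1.1 = κ'.1.1 := congrArg (fun c => c.1) hcode
        have e2 : κ.1.2.1 = κ'.1.2.1 := congrArg (fun c => c.2.1) hcode
        exact Prod.ext e1 (Prod.ext e2 heq)
  · intro κ
    refine ⟨O (rep κ), hO (rep κ), fun y hy => ?_⟩
    obtain ⟨h1, h2⟩ := hw1 κ y hy
    apply hOE (rep κ)
    intro e he
    have hκm : κ.1.2.1 = m (rep κ) := by rw [← hrep κ]
    have hδ : (2 : ℝ) / ((m (rep κ) : ℝ) + 1) =
      1 / ((m (rep κ) : ℝ) + 1) + 1 / ((m (rep κ) : ℝ) + 1) := by ring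
    have hδ0 : (0 : ℝ) < 1 / ((m (rep κ) : ℝ) + 1) := by positivity
    have hle := hm1 (rep κ)
    by_cases heA : e ∈ A (rep κ)
    · have h3 := h1 (e, p (rep κ) e) (by
        rw [← hrep κ]
        exact List.mem_map.2 ⟨e, Finset.mem_toList.2 heA, rfl⟩)
      have h4 := hp (rep κ) e
      rw [hκm] at h3
      simp only at h3
      rw [abs_lt] at h3 h4 ⊢
      constructor <;> linarith [h3.1, h3.2, h4.1, h4.2]
    · have h3 := h2 e (Finset.mem_sdiff.2 ⟨he, heA⟩)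
      have h4 : 𝓕.g e (rep κ) = 0 := by
        by_contra hcon
        exact heA ((hA _ _).2 ⟨(𝓕.tag e, F (rep κ) e),
          Finset.mem_image_of_mem _ he, rfl, hF1 _ _, hcon⟩)
      rw [h4, sub_zero]
      rw [hκm] at h3
      linarith
  · intro O' hO' x hx
    let x' : ↥(⋃₀ 𝒪) := ⟨x, O', hO', hx⟩
    let κ : I' := ⟨key x', x', rfl⟩
    refine ⟨κ, hw2 κ x ?_ ?_⟩
    · intro a ha
      obtain ⟨h1, h2⟩ := hkey x' a ha
      have := hp x' a.1
      rw [← h2] at this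
      exact this
    · intro e he
      obtain ⟨he1, he2⟩ := Finset.mem_sdiff.1 he
      have hk : key (rep κ) = key x' := hrep κ
      have hδ0 : (0 : ℝ) < 1 / ((m x' : ℝ) + 1) := by positivity
      have h4 : 𝓕.g e x = 0 := by
        by_contra hcon
        apply he2
        rw [hkeyA _ _ hk]
        refine (hA x' e).2 ⟨(𝓕.tag e, F (rep κ) e), ?_, rfl, hF1 _ _, hcon⟩
        have h5 : 𝒯 (rep κ) = 𝒯 x' := congrArg (fun c => c.1) hk
        rw [← h5]
        exact Finset.mem_image_of_mem _ he1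
      rw [h4, abs_zero]
      exact hδ0
  · intro r hr κ x
    simp only [w, hr]

end LF

end Pool.Agent.H60R3.Gul
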