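import Pool.Agent.H60R3.Gul.Closing
import Pool.Agent.H60R3.Gul.Labelled

/-!
# Chains of good sets and codes
-/

universe u

open Set Filter Topology Cardinal

namespace Pool.Agent.H60R3.Gul

/-- A compactness lemma: separating functions generate the topology. -/
lemma basic_of_sep {Z : Type*} [TopologicalSpace Z] [CompactSpace Z] {I : Type*}
    (g : I → Z → ℝ) (gc : ∀ i, Continuous (g i)) {K O : Set Z} (hK : IsClosed K)
    (hO : IsOpen O) {x : Z} (hx : x ∈ O)
    (sep : ∀ z ∈ K, (∀ i, g i z = g i x) → z = x) :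
    ∃ E : Finset I, ∃ ε > (0 : ℝ), ∀ z ∈ K, (∀ e ∈ E, |g e z - g e x| < ε) → z ∈ O := by
  classical
  by_contra hcon
  push Not at hcon
  let C : Finset I × ℕ → Set Z := fun P =>
    {z | z ∈ K ∧ z ∉ O ∧ ∀ e ∈ P.1, |g e z - g e x| ≤ 1 / ((P.2 : ℝ) + 1)}
  have hCc : ∀ P, IsClosed (C P) := by
    intro P
    refine IsClosed.inter hK (IsClosed.inter hO.isClosed_compl ?_)
    have : {z : Z | ∀ e ∈ P.1, |g e z - g e x| ≤ 1 / ((P.2 : ℝ) + 1)} =
        ⋂ e ∈ P.1, {z : Z | |g e z - g e x| ≤ 1 / ((P.2 : ℝ) + 1)} := by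
      ext p; simp
    change IsClosed {z : Z | ∀ e ∈ P.1, |g e z - g e x| ≤ 1 / ((P.2 : ℝ) + 1)}
    rw [this]
    exact isClosed_biInter fun e _ =>
      isClosed_le ((gc e).sub continuous_const).abs continuous_const
  have hne : (⋂ P, C P).Nonempty := by
    refine IsCompact.nonempty_iInter_of_directed_nonempty_isCompact_isClosed C ?_ ?_
      (fun i => (hCc i).isCompact) hCc
    · intro P Q
      refine ⟨(P.1 ∪ Q.1, max P.2 Q.2), ?_, ?_⟩
      · rintro y ⟨h1, h2, h3⟩
        refine ⟨h1, h2, fun e he => (h3 e (Finset.mem_union_left _ he)).trans ?_⟩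
        apply one_div_le_one_div_of_le (by positivity)
        simp
      · rintro y ⟨h1, h2, h3⟩
        refine ⟨h1, h2, fun e he => (h3 e (Finset.mem_union_right _ he)).trans ?_⟩
        apply one_div_le_one_div_of_le (by positivity)
        simp
    · intro P
      obtain ⟨z, h1, h2, h3⟩ := hcon P.1 (1 / ((P.2 : ℝ) + 1)) (by positivity)
      exact ⟨z, h1, h3, fun e he => (h2 e he).le⟩
  obtain ⟨z, hz⟩ := hne
  rw [mem_iInter] at hz
  have h1 : z = x := by
    refine sep z (hz (∅, 0)).1 fun i => ?_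
    by_contra hne
    have hpos : 0 < |g i z - g i x| := abs_pos.2 (sub_ne_zero.2 hne)
    obtain ⟨n, hn⟩ := exists_nat_one_div_lt hpos
    have h2 := (hz ({i}, n)).2.2 i (by simp)
    linarith
  exact (hz (∅, 0)).2.1 (h1 ▸ hx)

variable {X : Type u} [TopologicalSpace X]

/-- A labelled family attached to a good set. -/
structure Fam (D : Dat X) (S : Set X) extends LF.{u, u} X D.N where
  sat : ∀ i x, g i (D.r S x) = g i x
  sep : ∀ u ∈ closure S, ∀ v ∈ closure S, (∀ i, g i u = g i v) → u = v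

/-- A chain of good sets. -/
structure Ch (D : Dat X) (O : Type u) [LinearOrder O] where
  T0 : Set X
  Tle : O → Set X
  Tlt : O → Set X
  good0 : D.Good T0
  goodle : ∀ d, D.Good (Tle d)
  goodlt : ∀ d, D.Good (Tlt d)
  sub0 : ∀ d, T0 ⊆ Tle d
  mono : ∀ e d, e ≤ d → Tle e ⊆ Tle d
  le_lt : ∀ e d, e < d → Tle e ⊆ Tlt d
  lt_le : ∀ d, Tlt d ⊆ Tle d
  lt_bot : ∀ d, (∀ e, ¬ e < d) → Tlt d = T0
  lt_cov : ∀ d x, x ∈ Tlt d → (∃ e, e < d) → ∃ e, e < d ∧ x ∈ Tle e

namespace Ch

variable {D : Dat X} {O : Type u} [LinearOrder O] [WellFoundedLT O] [Nonempty O] (c : Ch D O)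

open Classical in
/-- The birth of an index. -/
noncomputable def birth (j : D.J) : O :=
  if h : ∃ d, j ∈ D.JJ (c.Tle d) then
    wellFounded_lt.min {d | j ∈ D.JJ (c.Tle d)} h else Classical.arbitrary O

lemma birth_mem {j : D.J} {d : O} (h : j ∈ D.JJ (c.Tle d)) : j ∈ D.JJ (c.Tle (c.birth j)) := by
  unfold birth
  rw [dif_pos ⟨d, h⟩]
  exact wellFounded_lt.min_mem {d | j ∈ D.JJ (c.Tle d)} ⟨d, h⟩

lemma birth_le {j : D.J} {d : O} (h : j ∈ D.JJ (c.Tle d)) : c.birth j ≤ d := by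
  unfold birth
  rw [dif_pos ⟨d, h⟩]
  exact not_lt.1 (wellFounded_lt.not_lt_min {d | j ∈ D.JJ (c.Tle d)} h)

/-- The good set of a code. -/
noncomputable def Dset : List D.J → Set X
  | [] => c.T0
  | (j :: _) => c.Tle (c.birth j)

lemma good_Dset : ∀ σ, D.Good (c.Dset σ)
  | [] => c.good0
  | (j :: _) => c.goodle (c.birth j)

/-- The open set of a code. -/
def G : List D.J → Set X
  | [] => univ
  | (j :: σ) => {x | x ∈ G σ ∧ c.Dset σ ⊆ c.Tle (c.birth j) ∧ j ∈ D.JJ (c.Tle (c.birth j)) ∧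
      (D.r (c.Dset σ) x, D.r (c.Tle (c.birth j)) x) ∈ D.V j}

lemma isOpen_G [CompactSpace X] [T2Space X] : ∀ σ, IsOpen (c.G σ)
  | [] => isOpen_univ
  | (j :: σ) => by
    have h1 := isOpen_G σ
    by_cases h2 : c.Dset σ ⊆ c.Tle (c.birth j)
    · by_cases h3 : j ∈ D.JJ (c.Tle (c.birth j))
      · have h4 : c.G (j :: σ) = c.G σ ∩
            {x | (D.r (c.Dset σ) x, D.r (c.Tle (c.birth j)) x) ∈ D.V j} := by
          ext x
          simp only [G, mem_ofPred_eq, mem_inter_iff]
          tauto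
        rw [h4]
        refine h1.inter ?_
        exact (D.V_open j).preimage
          ((c.good_Dset σ).r_cont.prodMk (c.goodle (c.birth j)).r_cont)
      · have : c.G (j :: σ) = ∅ := by
          ext x; simp only [G, mem_ofPred_eq, mem_empty_iff_false]; tauto
        rw [this]; exact isOpen_empty
    · have : c.G (j :: σ) = ∅ := by
        ext x; simp only [G, mem_ofPred_eq, mem_empty_iff_false]; tauto
      rw [this]; exact isOpen_empty

lemma G_sat {T : Set X} (hT : D.Good T) : ∀ σ, c.Dset σ ⊆ T → ∀ x,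
    (D.r T x ∈ c.G σ ↔ x ∈ c.G σ)
  | [], _, x => by simp [G]
  | (j :: σ), hσ, x => by
    simp only [G, mem_ofPred_eq]
    have hσ' : c.Tle (c.birth j) ⊆ T := hσ
    constructor
    · rintro ⟨h1, h2, h3, h4⟩
      have h5 := h2.trans hσ'
      rw [(c.good_Dset σ).r_r hT h5, (c.goodle _).r_r hT hσ'] at h4
      exact ⟨(G_sat hT σ h5 x).1 h1, h2, h3, h4⟩
    · rintro ⟨h1, h2, h3, h4⟩
      have h5 := h2.trans hσ'
      rw [(c.good_Dset σ).r_r hT h5, (c.goodle _).r_r hT hσ']
      exact ⟨(G_sat hT σ h5 x).2 h1, h2, h3, h4⟩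

/-- Existence of codes. -/
lemma exists_code [CompactSpace X] (x : X) (d : O) :
    D.r (c.Tlt d) x ≠ D.r (c.Tle d) x → ∃ σ, x ∈ c.G σ ∧ c.Dset σ = c.Tle d := by
  induction d using WellFoundedLT.induction with
  | ind d ih =>
  intro hne
  obtain ⟨j, hj⟩ := D.cover _ _ hne
  have hj1 : j ∈ D.JJ (c.Tle d) :=
    D.mem_JJ_of_closure (closure_mono (c.lt_le d) ((c.goodlt d).r_mem x)) ((c.goodle d).r_mem x) hj
  have hbirth : c.birth j = d := by
    refine le_antisymm (c.birth_le hj1) ?_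
    by_contra hcon
    push Not at hcon
    have h1 : j ∈ D.JJ (c.Tlt d) := D.JJ_mono (c.le_lt _ _ hcon) (c.birth_mem hj1)
    have h2 := D.h_spec j _ _ hj
    rw [(c.goodlt d).h_r x h1, (c.goodle d).h_r x hj1] at h2
    rw [h2.1] at h2
    exact zero_ne_one h2.2
  by_cases hA : (D.r c.T0 x, D.r (c.Tle d) x) ∈ D.V j
  · refine ⟨[j], ⟨mem_univ _, ?_, ?_, ?_⟩, ?_⟩
    · exact c.sub0 _
    · rw [hbirth]; exact hj1
    · rw [hbirth]; exact hA
    · change c.Tle (c.birth j) = _; rw [hbirth]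
  · have hlim : ∀ e, (D.r (c.Tlt e) x, D.r (c.Tle d) x) ∈ D.V j →
        ∃ e', e' < e ∧ (D.r (c.Tle e') x, D.r (c.Tle d) x) ∈ D.V j := by
      intro e he
      by_cases hemp : ∃ e', e' < e
      · have : Nonempty {e' // e' < e} := ⟨⟨hemp.choose, hemp.choose_spec⟩⟩
        obtain ⟨i, hi⟩ := (c.goodlt e).r_limit (ι := {e' // e' < e})
          (fun i => c.Tle i.1) (fun i => c.goodle _) (by
            intro a b
            rcases le_total a.1 b.1 with h | h
            · exact ⟨b, c.mono _ _ h, subset_rfl⟩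
            · exact ⟨a, subset_rfl, c.mono _ _ h⟩) (fun i => c.le_lt _ _ i.2)
          (fun y hy => by
            obtain ⟨e', h1, h2⟩ := c.lt_cov e y hy hemp
            exact ⟨⟨e', h1⟩, h2⟩)
          (O := {y | (y, D.r (c.Tle d) x) ∈ D.V j})
          ((D.V_open j).preimage (continuous_id.prodMk continuous_const)) he
        exact ⟨i.1, i.2, hi⟩
      · exfalso
        apply hA
        rw [c.lt_bot e (by push Not at hemp ⊢; exact hemp)] at he
        exact he
    have hne2 : {e | e < d ∧ (D.r (c.Tle e) x, D.r (c.Tle d) x) ∈ D.V j}.Nonempty := hlim d hj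
    let e := wellFounded_lt.min _ hne2
    have he : e < d ∧ (D.r (c.Tle e) x, D.r (c.Tle d) x) ∈ D.V j := wellFounded_lt.min_mem _ hne2
    have hne3 : D.r (c.Tlt e) x ≠ D.r (c.Tle e) x := by
      intro heq
      have h1 := he.2
      rw [← heq] at h1
      obtain ⟨e', h2, h3⟩ := hlim e h1
      exact wellFounded_lt.not_lt_min
        {e | e < d ∧ (D.r (c.Tle e) x, D.r (c.Tle d) x) ∈ D.V j} ⟨h2.trans he.1, h3⟩ h2
    obtain ⟨σ, hσ1, hσ2⟩ := ih e he.1 hne3
    refine ⟨j :: σ, ⟨hσ1, ?_, ?_, ?_⟩, ?_⟩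
    · rw [hσ2, hbirth]; exact c.mono _ _ he.1.le
    · rw [hbirth]; exact hj1
    · rw [hσ2, hbirth]; exact he.2
    · change c.Tle (c.birth j) = _; rw [hbirth]

/-- Labels of codes. -/
def labσ (D : Dat X) (σ : List D.J) (k : ℕ) : D.J := σ.reverse[k]?.getD D.j0

lemma labσ_cons_lt (j : D.J) (σ : List D.J) {k : ℕ} (hk : k < σ.length) :
    labσ D (j :: σ) k = labσ D σ k := by
  unfold labσ
  rw [List.reverse_cons, List.getElem?_append_left (by simpa using hk)]

lemma labσ_cons_eq (j : D.J) (σ : List D.J) : labσ D (j :: σ) σ.length = j := by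
  unfold labσ
  rw [List.reverse_cons, List.getElem?_append_right (by simp)]
  simp

/-- Finiteness for codes. -/
lemma codes_fin (x : X) (n : ℕ) (L : ℕ → D.J) :
    ∃ F : Finset (ℕ × ℕ), (∀ p ∈ F, p.1 < n) ∧ (∀ p ∈ F, p.2 ∈ D.N (L p.1)) ∧
      {σ : List D.J | σ.length = n ∧ (∀ p ∈ F, p.2 ∈ D.N (labσ D σ p.1)) ∧ x ∈ c.G σ}.Finite := by
  classical
  induction n with
  | zero =>
    refine ⟨∅, by simp, by simp, (Set.finite_singleton ([] : List D.J)).subset ?_⟩
    rintro σ ⟨h1, -⟩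
    exact List.length_eq_zero_iff.1 h1
  | succ n ih =>
    obtain ⟨F', h1, h2, h3⟩ := ih
    have hz := fun σ => D.fin (D.r (c.Dset σ) x, x) (L n)
    choose nn hnn1 hnn2 using hz
    refine ⟨F' ∪ h3.toFinset.image fun σ => (n, nn σ), ?_, ?_, ?_⟩
    · intro p hp
      rcases Finset.mem_union.1 hp with hp | hp
      · exact (h1 p hp).trans (Nat.lt_succ_self n)
      · obtain ⟨σ, -, rfl⟩ := Finset.mem_image.1 hp
        exact Nat.lt_succ_self n
    · intro p hp
      rcases Finset.mem_union.1 hp with hp | hp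
      · exact h2 p hp
      · obtain ⟨σ, -, rfl⟩ := Finset.mem_image.1 hp
        exact hnn1 σ
    · refine Set.Finite.subset (Set.Finite.biUnion h3 fun σ _ =>
        (hnn2 σ).image fun j => j :: σ) ?_
      rintro σ ⟨k1, k2, k3⟩
      cases σ with
      | nil => simp at k1
      | cons j σ =>
        have k4 : σ.length = n := by simpa using k1
        obtain ⟨m1, m2, m3, m4⟩ := k3
        have k5 : σ ∈ {σ : List D.J | σ.length = n ∧
            (∀ p ∈ F', p.2 ∈ D.N (labσ D σ p.1)) ∧ x ∈ c.G σ} := by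
          refine ⟨k4, fun p hp => ?_, m1⟩
          have := k2 p (Finset.mem_union_left _ hp)
          rw [labσ_cons_lt j σ (by rw [k4]; exact h1 p hp)] at this
          exact this
        simp only [mem_iUnion]
        refine ⟨σ, k5, j, ⟨?_, ?_⟩, rfl⟩
        · have := k2 (n, nn σ) (Finset.mem_union_right _
            (Finset.mem_image_of_mem _ (h3.mem_toFinset.2 k5)))
          have h9 : labσ D (j :: σ) n = j := by rw [← k4]; exact labσ_cons_eq j σ
          simp only at this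
          rw [h9] at this
          exact this
        · refine (c.goodle (c.birth j)).saturated m3 ?_
          rw [(c.good_Dset σ).r_r' (c.goodle _) m2]
          exact m4

end Ch

end Pool.Agent.H60R3.Gul
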