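import Pool.Agent.H60R3.Gul.Basic

/-!
# Closing-off operator producing good sets
-/

universe u

open Set Filter Topology Cardinal

namespace Pool.Agent.H60R3.Gul

/-- Shapes of the closing-off operations. -/
abbrev Sh := Option (ℕ × ℕ × ℕ) × List ((ℕ × ℕ × ℕ) × ℚ × ℚ) × ℕ × Bool

/-- The countable language of the closing-off operations. -/
def Lg : FirstOrder.Language.{0, 0} := ⟨fun _ => Sh, fun _ => Empty⟩

namespace Dat

variable {X : Type u} [TopologicalSpace X] (D : Dat X)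

/-- Enumeration of the members at a point. -/
noncomputable def en (z : X × X) (k : ℕ) : Option D.J :=
  letI := (D.countable_at z).toEncodable
  (Encodable.decode k : Option {j | z ∈ D.V j}).map Subtype.val

lemma exists_en {z : X × X} {j : D.J} (h : z ∈ D.V j) : ∃ k, D.en z k = some j := by
  let _ := (D.countable_at z).toEncodable
  refine ⟨Encodable.encode (⟨j, h⟩ : {j | z ∈ D.V j}), ?_⟩
  unfold en
  simp [Encodable.encodek]

open Classical in
/-- Look up an index. -/
noncomputable def look {n : ℕ} (x : Fin n → X) (t : ℕ × ℕ × ℕ) : Option D.J :=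
  if h : t.1 < n ∧ t.2.1 < n then D.en (x ⟨t.1, h.1⟩, x ⟨t.2.1, h.2⟩) t.2.2 else none

/-- The condition realised by the operations. -/
def cond {n : ℕ} (x : Fin n → X) (s : Sh) (p : X × X) : Prop :=
  (∀ t, s.1 = some t → ∀ j, D.look x t = some j → p ∉ D.V j) ∧
  ∀ e ∈ s.2.1, ∀ j, D.look x e.1 = some j →
    |D.h j p.1 - e.2.1| < 1 / ((s.2.2.1 : ℝ) + 1) ∧ |D.h j p.2 - e.2.2| < 1 / ((s.2.2.1 : ℝ) + 1)

variable [Nonempty X]

open Classical in
/-- The interpretation of the language. -/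
@[reducible] noncomputable def str : Lg.Structure X where
  funMap s x :=
    if h : ∃ p : X × X, D.cond x (s : Sh) p then
      (if (s : Sh).2.2.2 then h.choose.1 else h.choose.2) else Classical.arbitrary X
  RelMap r _ := (r : Empty).elim

/-- The closing-off operator. -/
noncomputable def Cl (S : Set X) : Set X :=
  letI := D.str
  (FirstOrder.Language.Substructure.closure Lg S : Set X)

lemma subset_Cl (S : Set X) : S ⊆ D.Cl S := by
  let _ := D.str
  exact FirstOrder.Language.Substructure.subset_closure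

lemma Cl_mono {S T : Set X} (h : S ⊆ T) : D.Cl S ⊆ D.Cl T := by
  let _ := D.str
  exact FirstOrder.Language.Substructure.closure_mono h

lemma Cl_Cl (S : Set X) : D.Cl (D.Cl S) = D.Cl S := by
  let _ := D.str
  unfold Cl
  rw [FirstOrder.Language.Substructure.closure_eq]

lemma Cl_le {S T : Set X} (h : S ⊆ D.Cl T) : D.Cl S ⊆ D.Cl T := by
  rw [← D.Cl_Cl T]; exact D.Cl_mono h

lemma Cl_directed {ι : Type*} [Nonempty ι] {S : ι → Set X} (hS : Directed (· ⊆ ·) S) {x : X}
    (hx : x ∈ D.Cl (⋃ i, S i)) : ∃ i, x ∈ D.Cl (S i) := by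
  let _ := D.str
  have h1 : Directed (· ≤ ·) (fun i => FirstOrder.Language.Substructure.closure Lg (S i)) := by
    intro i j
    obtain ⟨k, h1, h2⟩ := hS i j
    exact ⟨k, FirstOrder.Language.Substructure.closure_mono h1, FirstOrder.Language.Substructure.closure_mono h2⟩
  have h2 := (FirstOrder.Language.Substructure.mem_iSup_of_directed h1 (x := x)).1
  apply h2
  rw [← FirstOrder.Language.Substructure.closure_iUnion]
  exact hx

lemma mk_Cl_le (S : Set X) : #(D.Cl S) ≤ max ℵ₀ #S := by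
  let _ := D.str
  have h := FirstOrder.Language.Substructure.lift_card_closure_le (L := Lg) (s := S)
  have h2 : #(Σ i, Lg.Functions i) ≤ ℵ₀ := by
    have : Countable (Σ i, Lg.Functions i) := by
      have : ∀ i, Countable (Lg.Functions i) := fun i => (inferInstance : Countable Sh)
      infer_instance
    exact mk_le_aleph0
  rw [Cardinal.lift_id'.{0, u}, Cardinal.lift_id'.{0, u}] at h
  refine h.trans ?_
  refine max_le (le_max_left _ _) ?_
  refine (add_le_max _ _).trans ?_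
  refine max_le (max_le (le_max_right _ _) ?_) (le_max_left _ _)
  refine le_trans ?_ (le_max_left _ _)
  rw [← Cardinal.lift_aleph0.{u, 0}]
  exact Cardinal.lift_le.2 h2

open Classical in
lemma exists_in_Cl (S : Set X) {n : ℕ} (x : Fin n → X) (hx : ∀ k, x k ∈ D.Cl S)
    (s : Option (ℕ × ℕ × ℕ)) (l : List ((ℕ × ℕ × ℕ) × ℚ × ℚ)) (m : ℕ)
    (p : X × X) (hp : ∀ c, D.cond x (s, l, m, c) p) :
    ∃ q : X × X, q.1 ∈ D.Cl S ∧ q.2 ∈ D.Cl S ∧ D.cond x (s, l, m, true) q := by
  let _ := D.str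
  have hex : ∀ c, ∃ p : X × X, D.cond x (s, l, m, c) p := fun c => ⟨p, hp c⟩
  have heq : (fun p => D.cond x (s, l, m, true) p) = (fun p => D.cond x (s, l, m, false) p) := rfl
  refine ⟨(hex true).choose, ?_, ?_, (hex true).choose_spec⟩
  · have := (FirstOrder.Language.Substructure.closure Lg S).fun_mem (n := n)
      ((s, l, m, true) : Sh) x hx
    have h2 : FirstOrder.Language.Structure.funMap (L := Lg) (n := n) ((s, l, m, true) : Sh) x =
        (hex true).choose.1 := by
      change (if h : ∃ p : X × X, D.cond x (s, l, m, true) p then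
        (if true then h.choose.1 else h.choose.2) else Classical.arbitrary X) = _
      rw [dif_pos (hex true)]; simp
    rw [h2] at this
    exact this
  · have := (FirstOrder.Language.Substructure.closure Lg S).fun_mem (n := n)
      ((s, l, m, false) : Sh) x hx
    have h2 : FirstOrder.Language.Structure.funMap (L := Lg) (n := n) ((s, l, m, false) : Sh) x =
        (hex true).choose.2 := by
      change (if h : ∃ p : X × X, D.cond x (s, l, m, false) p then
        (if false then h.choose.1 else h.choose.2) else Classical.arbitrary X) = _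
      rw [dif_pos (hex false)]
      rfl
    rw [h2] at this
    exact this

lemma approx (S : Set X) (Φ : Finset D.J) (hΦ : ∀ i ∈ Φ, i ∈ D.JJ (D.Cl S))
    (w : Option D.J) (hw : ∀ j, w = some j → j ∈ D.JJ (D.Cl S)) (a b : X)
    (hab : ∀ j, w = some j → (a, b) ∉ D.V j) (m : ℕ) :
    ∃ q : X × X, q.1 ∈ D.Cl S ∧ q.2 ∈ D.Cl S ∧ (∀ j, w = some j → q ∉ D.V j) ∧
      ∀ i ∈ Φ, |D.h i q.1 - D.h i a| < 2 / ((m : ℝ) + 1) ∧
        |D.h i q.2 - D.h i b| < 2 / ((m : ℝ) + 1) := by
  classical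
  have hm : (0 : ℝ) < 1 / ((m : ℝ) + 1) := by positivity
  have hch : ∀ i : D.J, ∃ A B : X, ∃ K : ℕ, i ∈ D.JJ (D.Cl S) →
      A ∈ D.Cl S ∧ B ∈ D.Cl S ∧ D.en (A, B) K = some i := by
    intro i
    by_cases hi : i ∈ D.JJ (D.Cl S)
    · obtain ⟨A, hA, B, hB, hAB⟩ := hi
      obtain ⟨K, hK⟩ := D.exists_en hAB
      exact ⟨A, B, K, fun _ => ⟨hA, hB, hK⟩⟩
    · exact ⟨Classical.arbitrary X, Classical.arbitrary X, 0, fun h => absurd h hi⟩
  choose A B K hABK using hch
  have hrat : ∀ t : ℝ, ∃ c : ℚ, |t - c| < 1 / ((m : ℝ) + 1) := by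
    intro t
    obtain ⟨c, h1, h2⟩ := exists_rat_btwn (show t - 1 / ((m : ℝ) + 1) < t by linarith)
    exact ⟨c, by rw [abs_lt]; constructor <;> linarith⟩
  choose c hc using hrat
  let Ψ : Finset D.J := Φ ∪ w.toFinset
  have hΨ : ∀ i ∈ Ψ, i ∈ D.JJ (D.Cl S) := by
    intro i hi
    rcases Finset.mem_union.1 hi with h | h
    · exact hΦ i h
    · exact hw i (by simpa using h)
  let pts : Finset X := Ψ.image A ∪ Ψ.image B
  let e := pts.equivFin
  let idx : X → ℕ := fun y => if h : y ∈ pts then (e ⟨y, h⟩ : ℕ) else 0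
  let x : Fin pts.card → X := fun k => (e.symm k : X)
  have hidx : ∀ y, ∀ hy : y ∈ pts, ∃ h : idx y < pts.card, x ⟨idx y, h⟩ = y := by
    intro y hy
    have h1 : idx y = (e ⟨y, hy⟩ : ℕ) := by simp [idx, hy]
    refine ⟨by rw [h1]; exact (e ⟨y, hy⟩).2, ?_⟩
    have : (⟨idx y, by rw [h1]; exact (e ⟨y, hy⟩).2⟩ : Fin pts.card) = e ⟨y, hy⟩ := by
      ext; exact h1
    change ((e.symm ⟨idx y, _⟩ : pts) : X) = y
    rw [this]; simp
  have hx : ∀ k, x k ∈ D.Cl S := by
    intro k
    have h1 : (x k) ∈ pts := (e.symm k).2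
    rcases Finset.mem_union.1 h1 with h | h
    · obtain ⟨i, hi, h2⟩ := Finset.mem_image.1 h
      rw [← h2]; exact (hABK i (hΨ i hi)).1
    · obtain ⟨i, hi, h2⟩ := Finset.mem_image.1 h
      rw [← h2]; exact (hABK i (hΨ i hi)).2.1
  have hlook : ∀ i ∈ Ψ, D.look x (idx (A i), idx (B i), K i) = some i := by
    intro i hi
    have hA : A i ∈ pts := Finset.mem_union_left _ (Finset.mem_image_of_mem _ hi)
    have hB : B i ∈ pts := Finset.mem_union_right _ (Finset.mem_image_of_mem _ hi)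
    obtain ⟨h1, h2⟩ := hidx _ hA
    obtain ⟨h3, h4⟩ := hidx _ hB
    unfold look
    rw [dif_pos ⟨h1, h3⟩]
    change D.en (x ⟨idx (A i), _⟩, x ⟨idx (B i), _⟩) (K i) = some i
    rw [h2, h4]
    exact (hABK i (hΨ i hi)).2.2
  let l : List ((ℕ × ℕ × ℕ) × ℚ × ℚ) :=
    Φ.toList.map fun i => ((idx (A i), idx (B i), K i), c (D.h i a), c (D.h i b))
  let s : Option (ℕ × ℕ × ℕ) := w.map fun j => (idx (A j), idx (B j), K j)
  have hcond : ∀ cc, D.cond x (s, l, m, cc) (a, b) := by
    intro cc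
    refine ⟨?_, ?_⟩
    · intro t ht j hj
      cases hw' : w with
      | none => simp [s, hw'] at ht
      | some j' =>
        have h1 : t = (idx (A j'), idx (B j'), K j') := by
          simp only [s, hw', Option.map_some] at ht
          exact (Option.some.inj ht).symm
        rw [h1, hlook j' (Finset.mem_union_right _ (by simp [hw']))] at hj
        have h2 : j' = j := Option.some.inj hj
        exact hab j (by rw [hw', h2])
    · intro ee he j hj
      obtain ⟨i, hi, h1⟩ := List.mem_map.1 he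
      rw [← h1] at hj ⊢
      have h2 : D.look x (idx (A i), idx (B i), K i) = some i :=
        hlook i (Finset.mem_union_left _ (Finset.mem_toList.1 hi))
      change D.look x (idx (A i), idx (B i), K i) = some j at hj
      rw [h2] at hj
      have h3 : i = j := Option.some.inj hj
      subst h3
      exact ⟨hc _, hc _⟩
  obtain ⟨q, hq1, hq2, hq3⟩ := D.exists_in_Cl S x hx s l m (a, b) hcond
  refine ⟨q, hq1, hq2, ?_, ?_⟩
  · intro j hj
    refine hq3.1 (idx (A j), idx (B j), K j) (by simp [s, hj]) j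
      (hlook j (Finset.mem_union_right _ (by simp [hj])))
  · intro i hi
    have h1 := hq3.2 ((idx (A i), idx (B i), K i), c (D.h i a), c (D.h i b))
      (List.mem_map.2 ⟨i, Finset.mem_toList.2 hi, rfl⟩) i
      (hlook i (Finset.mem_union_left _ hi))
    have h2 := hc (D.h i a)
    have h3 := hc (D.h i b)
    have h4 : (2 : ℝ) / ((m : ℝ) + 1) = 1 / ((m : ℝ) + 1) + 1 / ((m : ℝ) + 1) := by ring
    change |D.h i q.1 - (c (D.h i a) : ℝ)| < 1 / ((m : ℝ) + 1) ∧
      |D.h i q.2 - (c (D.h i b) : ℝ)| < 1 / ((m : ℝ) + 1) at h1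
    rw [h4]
    rw [abs_lt] at h1 h2 h3
    rw [abs_lt] at h1
    rw [abs_lt, abs_lt]
    refine ⟨⟨by linarith [h1.1.1, h2.2], by linarith [h1.1.2, h2.1]⟩,
      ⟨by linarith [h1.2.1, h3.2], by linarith [h1.2.2, h3.1]⟩⟩

lemma approx_lim [CompactSpace X] (S : Set X)
    (w : Option D.J) (hw : ∀ j, w = some j → j ∈ D.JJ (D.Cl S)) (a b : X)
    (hab : ∀ j, w = some j → (a, b) ∉ D.V j) :
    ∃ a' ∈ closure (D.Cl S), ∃ b' ∈ closure (D.Cl S), (∀ j, w = some j → (a', b') ∉ D.V j) ∧
      ∀ i ∈ D.JJ (D.Cl S), D.h i a' = D.h i a ∧ D.h i b' = D.h i b := by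
  classical
  have hq : ∀ P : Finset (D.JJ (D.Cl S)) × ℕ, ∃ q : X × X, q.1 ∈ D.Cl S ∧ q.2 ∈ D.Cl S ∧
      (∀ j, w = some j → q ∉ D.V j) ∧
      ∀ i ∈ P.1, |D.h i q.1 - D.h i a| < 2 / ((P.2 : ℝ) + 1) ∧
        |D.h i q.2 - D.h i b| < 2 / ((P.2 : ℝ) + 1) := by
    intro P
    obtain ⟨q, h1, h2, h3, h4⟩ := D.approx S (P.1.image Subtype.val) (by
      intro i hi
      obtain ⟨k, _, rfl⟩ := Finset.mem_image.1 hi
      exact k.2) w hw a b hab P.2
    exact ⟨q, h1, h2, h3, fun i hi => h4 i (Finset.mem_image_of_mem _ hi)⟩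
  choose q hq1 hq2 hq3 hq4 using hq
  let 𝒰 : Ultrafilter (Finset (D.JJ (D.Cl S)) × ℕ) := Ultrafilter.of atTop
  have h𝒰 : (𝒰 : Filter (Finset (D.JJ (D.Cl S)) × ℕ)) ≤ atTop := Ultrafilter.of_le _
  obtain ⟨p, -, hp⟩ := isCompact_univ.ultrafilter_le_nhds (𝒰.map q) (by simp)
  have hp' : Tendsto q 𝒰 (𝓝 p) := hp
  have hp1 : Tendsto (fun P => (q P).1) 𝒰 (𝓝 p.1) := (continuous_fst.tendsto _).comp hp'
  have hp2 : Tendsto (fun P => (q P).2) 𝒰 (𝓝 p.2) := (continuous_snd.tendsto _).comp hp'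
  have key : ∀ i : D.JJ (D.Cl S), ∀ ε > (0 : ℝ), ∀ᶠ P in (𝒰 : Filter _),
      |D.h i (q P).1 - D.h i a| < ε ∧ |D.h i (q P).2 - D.h i b| < ε := by
    intro i ε hε
    apply h𝒰
    obtain ⟨m, hm⟩ := exists_nat_gt (2 / ε)
    filter_upwards [eventually_ge_atTop (({i} : Finset (D.JJ (D.Cl S))), m)] with P hP
    have h1 : i ∈ P.1 := hP.1 (by simp)
    have h2 : (m : ℝ) ≤ P.2 := by exact_mod_cast hP.2
    have h3 : 2 / ((P.2 : ℝ) + 1) < ε := by
      rw [div_lt_iff₀ (by positivity)]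
      rw [div_lt_iff₀ hε] at hm
      nlinarith
    exact ⟨(hq4 P i h1).1.trans h3, (hq4 P i h1).2.trans h3⟩
  refine ⟨p.1, mem_closure_of_tendsto hp1 (Eventually.of_forall hq1), p.2,
    mem_closure_of_tendsto hp2 (Eventually.of_forall hq2), ?_, ?_⟩
  · intro j hj
    have hcl : IsClosed (D.V j)ᶜ := (D.V_open j).isClosed_compl
    exact hcl.mem_of_tendsto hp' (Eventually.of_forall fun P => hq3 P j hj)
  · intro i hi
    constructor
    · have t1 : Tendsto (fun P => D.h i (q P).1) 𝒰 (𝓝 (D.h i p.1)) :=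
        ((D.h_cont i).tendsto _).comp hp1
      have t2 : Tendsto (fun P => D.h i (q P).1) 𝒰 (𝓝 (D.h i a)) := by
        rw [Metric.tendsto_nhds]
        intro ε hε
        filter_upwards [key ⟨i, hi⟩ ε hε] with P hP
        exact hP.1
      exact tendsto_nhds_unique t1 t2
    · have t1 : Tendsto (fun P => D.h i (q P).2) 𝒰 (𝓝 (D.h i p.2)) :=
        ((D.h_cont i).tendsto _).comp hp2
      have t2 : Tendsto (fun P => D.h i (q P).2) 𝒰 (𝓝 (D.h i b)) := by
        rw [Metric.tendsto_nhds]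
        intro ε hε
        filter_upwards [key ⟨i, hi⟩ ε hε] with P hP
        exact hP.2
      exact tendsto_nhds_unique t1 t2

lemma Cl_good [CompactSpace X] (S : Set X) : D.Good (D.Cl S) := by
  refine ⟨?_, ?_⟩
  · intro a
    obtain ⟨a', ha', b', hb', -, h⟩ := D.approx_lim S none (by simp) a a (by simp)
    exact ⟨a', ha', fun i hi => (h i hi).1⟩
  · intro j hj a b hab
    obtain ⟨a', ha', b', hb', h1, h⟩ := D.approx_lim S (some j)
      (fun j' hj' => by rw [← Option.some.inj hj']; exact hj) a b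
      (fun j' hj' => by rw [← Option.some.inj hj']; exact hab)
    exact ⟨a', ha', b', hb', h1 j rfl, h⟩

end Dat

end Pool.Agent.H60R3.Gul
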