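import Pool.Agent.H60R3.Gul.CD
import Pool.Agent.H60R3.Gul.Labelled

/-!
# Function spaces of compacta with separating labelled families
-/

universe u

open Set Filter Topology

namespace Pool.Agent.H60R3.Gul

variable {X : Type u} [TopologicalSpace X]

section

variable {J : Type u} {N : J → Set ℕ} (𝓕 : LF.{u, u} X N)

/-- The bounded generating functions. -/
noncomputable def gen (i : 𝓕.I) (x : X) : ℝ := Real.arctan (𝓕.g i x)

lemma gen_cont (i : 𝓕.I) : Continuous (gen 𝓕 i) :=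
  Real.continuous_arctan.comp (𝓕.g_cont i)

lemma gen_ne_zero {i : 𝓕.I} {x : X} (h : gen 𝓕 i x ≠ 0) : 𝓕.g i x ≠ 0 := by
  intro h0
  apply h
  unfold gen
  rw [h0, Real.arctan_zero]

/-- The generating set. -/
def genSet : Set (X → ℝ) := range (gen 𝓕) ∪ {0}

lemma cd_genSet : CD (genSet 𝓕) := by
  let Γ : ℕ × Finset (ℕ × ℕ) → Set (X → ℝ) := fun p =>
    gen 𝓕 '' {i | 𝓕.tag i = p.1 ∧ ∀ q ∈ p.2, q.2 ∈ N (𝓕.lab i q.1)}
  have hbox : IsCompact (Set.pi Set.univ fun _ : X => Icc (-2 : ℝ) 2) :=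
    isCompact_univ_pi fun _ => isCompact_Icc
  have hΓ : ∀ p, closure (Γ p) ⊆ Set.pi Set.univ fun _ : X => Icc (-2 : ℝ) 2 := by
    intro p
    refine closure_minimal ?_ hbox.isClosed
    rintro _ ⟨i, -, rfl⟩ x -
    have h1 := Real.neg_pi_div_two_lt_arctan (𝓕.g i x)
    have h2 := Real.arctan_lt_pi_div_two (𝓕.g i x)
    have h3 := Real.pi_le_four
    constructor
    · change -2 ≤ Real.arctan (𝓕.g i x); linarith
    · change Real.arctan (𝓕.g i x) ≤ 2; linarith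
  refine CD.mk' (range (fun p => closure (Γ p)) ∪ {{0}}) ?_ ?_ ?_
  · exact (Set.countable_range _).union (Set.countable_singleton _)
  · rintro C (⟨p, rfl⟩ | hC)
    · exact hbox.of_isClosed_subset isClosed_closure (hΓ p)
    · rw [mem_singleton_iff] at hC
      rw [hC]; exact isCompact_singleton
  · rintro s (⟨i, rfl⟩ | hs)
    · refine ⟨⟨closure (Γ (𝓕.tag i, ∅)), Or.inl ⟨_, rfl⟩,
        subset_closure ⟨i, ⟨rfl, by simp⟩, rfl⟩⟩, ?_⟩
      intro z hz
      by_cases hz0 : z = 0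
      · exact Or.inr hz0
      have hx : ∃ x, z x ≠ 0 := by
        by_contra hcon
        push Not at hcon
        exact hz0 (funext hcon)
      obtain ⟨x, hx⟩ := hx
      obtain ⟨F, hF1, hF2⟩ := 𝓕.fin x (𝓕.tag i) (𝓕.lab i)
      have h1 : z ∈ closure (Γ (𝓕.tag i, F)) :=
        hz _ (Or.inl ⟨_, rfl⟩) (subset_closure ⟨i, ⟨rfl, hF1⟩, rfl⟩)
      have hfin : (gen 𝓕 '' {i' | 𝓕.tag i' = 𝓕.tag i ∧ (∀ p ∈ F, p.2 ∈ N (𝓕.lab i' p.1)) ∧
          𝓕.g i' x ≠ 0}).Finite := hF2.image _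
      have h2 : z ∈ closure (gen 𝓕 '' {i' | 𝓕.tag i' = 𝓕.tag i ∧
          (∀ p ∈ F, p.2 ∈ N (𝓕.lab i' p.1)) ∧ 𝓕.g i' x ≠ 0}) := by
        rw [mem_closure_iff] at h1 ⊢
        intro O hO hzO
        have hO' : IsOpen {φ : X → ℝ | φ x ≠ 0} :=
          isOpen_ne_fun (continuous_apply x) continuous_const
        obtain ⟨φ, ⟨hφ1, hφ2⟩, hφ3⟩ := h1 (O ∩ {φ : X → ℝ | φ x ≠ 0}) (hO.inter hO') ⟨hzO, hx⟩
        obtain ⟨i', ⟨h3, h4⟩, rfl⟩ := hφ3
        exact ⟨gen 𝓕 i', hφ1, i', ⟨h3, h4, gen_ne_zero 𝓕 hφ2⟩, rfl⟩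
      rw [hfin.isClosed.closure_eq] at h2
      obtain ⟨i', -, rfl⟩ := h2
      exact Or.inl ⟨i', rfl⟩
    · rw [mem_singleton_iff] at hs
      subst hs
      refine ⟨⟨{0}, Or.inr rfl, rfl⟩, fun z hz => Or.inr (hz {0} (Or.inr rfl) rfl)⟩

/-- The sets generating the algebra. -/
def stage : ℕ → Set (X → ℝ)
  | 0 => genSet 𝓕 ∪ range (fun (c : ℝ) (_ : X) => c)
  | n + 1 => stage n ∪ (Set.image2 (fun f g => f + g) (stage n) (stage n) ∪
      Set.image2 (fun f g => f * g) (stage n) (stage n))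

omit [TopologicalSpace X] in
lemma cd_consts : CD (range (fun (c : ℝ) (_ : X) => c)) := by
  have : range (fun (c : ℝ) (_ : X) => c) =
      ⋃ n : ℕ, (fun (c : ℝ) (_ : X) => c) '' Icc (-(n : ℝ)) n := by
    ext f
    simp only [mem_iUnion]
    constructor
    · rintro ⟨c, rfl⟩
      obtain ⟨n, hn⟩ := exists_nat_ge |c|
      exact ⟨n, c, abs_le.1 hn, rfl⟩
    · rintro ⟨n, c, -, rfl⟩
      exact ⟨c, rfl⟩
  rw [this]
  refine CD.iUnion fun n => CD.of_compact (isCompact_Icc.image ?_)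
  exact continuous_pi fun _ => continuous_id

lemma cd_stage : ∀ n, CD (stage 𝓕 n)
  | 0 => (cd_genSet 𝓕).union cd_consts
  | n + 1 => (cd_stage n).union ((CD.image2 (continuous_fst.add continuous_snd)
      (cd_stage n) (cd_stage n)).union
      (CD.image2 (continuous_fst.mul continuous_snd) (cd_stage n) (cd_stage n)))

lemma stage_mono {m n : ℕ} (h : m ≤ n) : stage 𝓕 m ⊆ stage 𝓕 n := by
  induction h with
  | refl => exact subset_rfl
  | step _ ih => exact ih.trans subset_union_left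

lemma stage_cont : ∀ n, ∀ f ∈ stage 𝓕 n, Continuous f
  | 0, f, hf => by
    rcases hf with (⟨i, rfl⟩ | hf) | ⟨c, rfl⟩
    · exact gen_cont 𝓕 i
    · rw [mem_singleton_iff] at hf
      rw [hf]; exact continuous_const
    · exact continuous_const
  | n + 1, f, hf => by
    rcases hf with hf | ⟨a, ha, b, hb, rfl⟩ | ⟨a, ha, b, hb, rfl⟩
    · exact stage_cont n f hf
    · exact (stage_cont n a ha).add (stage_cont n b hb)
    · exact (stage_cont n a ha).mul (stage_cont n b hb)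

lemma mem_stage_of_adjoin (f : C(X, ℝ))
    (hf : f ∈ Algebra.adjoin ℝ (range fun i : 𝓕.I => (⟨gen 𝓕 i, gen_cont 𝓕 i⟩ : C(X, ℝ)))) :
    (⇑f : X → ℝ) ∈ ⋃ n, stage 𝓕 n := by
  induction hf using Algebra.adjoin_induction with
  | mem f hf =>
    obtain ⟨i, rfl⟩ := hf
    exact mem_iUnion.2 ⟨0, Or.inl (Or.inl ⟨i, rfl⟩)⟩
  | algebraMap c =>
    exact mem_iUnion.2 ⟨0, Or.inr ⟨c, by ext; rfl⟩⟩
  | add f g _ _ hf hg =>
    obtain ⟨m, hm⟩ := mem_iUnion.1 hf
    obtain ⟨n, hn⟩ := mem_iUnion.1 hg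
    refine mem_iUnion.2 ⟨max m n + 1, Or.inr (Or.inl ⟨f, ?_, g, ?_, rfl⟩)⟩
    · exact stage_mono 𝓕 (le_max_left _ _) hm
    · exact stage_mono 𝓕 (le_max_right _ _) hn
  | mul f g _ _ hf hg =>
    obtain ⟨m, hm⟩ := mem_iUnion.1 hf
    obtain ⟨n, hn⟩ := mem_iUnion.1 hg
    refine mem_iUnion.2 ⟨max m n + 1, Or.inr (Or.inr ⟨f, ?_, g, ?_, rfl⟩)⟩
    · exact stage_mono 𝓕 (le_max_left _ _) hm
    · exact stage_mono 𝓕 (le_max_right _ _) hn

/-- If a compact space has a separating labelled family, then its function space in the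
topology of pointwise convergence is a Lindelof Sigma-space. -/
theorem lindelofSigma_cp [CompactSpace X] (hsep : ∀ u v : X, (∀ i, 𝓕.g i u = 𝓕.g i v) → u = v) :
    LindelofSigma {f : X → ℝ // Continuous f} := by
  let B : ℕ → Set (X → ℝ) := fun n =>
    Set.pi Set.univ fun _ : X => Icc (-(1 / ((n : ℝ) + 1))) (1 / ((n : ℝ) + 1))
  have hB : ∀ n, IsCompact (B n) := fun n => isCompact_univ_pi fun _ => isCompact_Icc
  let A := Algebra.adjoin ℝ (range fun i : 𝓕.I => (⟨gen 𝓕 i, gen_cont 𝓕 i⟩ : C(X, ℝ)))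
  have hA : A.SeparatesPoints := by
    intro u v huv
    have : ∃ i, 𝓕.g i u ≠ 𝓕.g i v := by
      by_contra hcon
      push Not at hcon
      exact huv (hsep u v hcon)
    obtain ⟨i, hi⟩ := this
    refine ⟨gen 𝓕 i, ⟨⟨gen 𝓕 i, gen_cont 𝓕 i⟩, ?_, rfl⟩, ?_⟩
    · exact Algebra.subset_adjoin ⟨i, rfl⟩
    · exact fun h => hi (Real.arctan_injective h)
  have htop := ContinuousMap.subalgebra_topologicalClosure_eq_top_of_separatesPoints A hA
  have heq : {f : X → ℝ | Continuous f} =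
      ⋂ n : ℕ, Set.image2 (fun f g => f + g) (⋃ m, stage 𝓕 m) (B n) := by
    ext f
    simp only [mem_iInter]
    constructor
    · intro hf n
      have h1 : (⟨f, hf⟩ : C(X, ℝ)) ∈ A.topologicalClosure := by rw [htop]; trivial
      have h2 : (⟨f, hf⟩ : C(X, ℝ)) ∈ closure (A : Set C(X, ℝ)) := h1
      obtain ⟨a, ha, hd⟩ := Metric.mem_closure_iff.1 h2 (1 / ((n : ℝ) + 1)) (by positivity)
      refine ⟨a, mem_stage_of_adjoin 𝓕 a ha, f - a, ?_, by simp⟩
      intro x _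
      have h3 := ContinuousMap.dist_apply_le_dist (f := (⟨f, hf⟩ : C(X, ℝ))) (g := a) x
      rw [Real.dist_eq] at h3
      have h4 := abs_le.1 (h3.trans hd.le)
      exact h4
    · intro hf
      have hmem : ∀ n : ℕ, ∃ a : X → ℝ, Continuous a ∧ ∀ x, |f x - a x| ≤ 1 / ((n : ℝ) + 1) := by
        intro n
        obtain ⟨a, ha, b, hb, hab⟩ := hf n
        obtain ⟨m, hm⟩ := mem_iUnion.1 ha
        refine ⟨a, stage_cont 𝓕 m a hm, fun x => ?_⟩
        have h1 : f x - a x = b x := by rw [← hab]; simp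
        rw [h1]
        exact abs_le.2 (hb x (mem_univ x))
      refine continuous_of_uniform_approx_of_continuous fun u hu => ?_
      obtain ⟨ε, hε, hεu⟩ := Metric.mem_uniformity_dist.1 hu
      obtain ⟨n, hn⟩ := exists_nat_one_div_lt hε
      obtain ⟨a, ha1, ha2⟩ := hmem n
      exact ⟨a, ha1, fun x => hεu (by rw [Real.dist_eq]; exact (ha2 x).trans_lt hn)⟩
  have hcd : CD {f : X → ℝ | Continuous f} := by
    rw [heq]
    exact CD.iInter fun n => CD.image2 (continuous_fst.add continuous_snd)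
      (CD.iUnion (cd_stage 𝓕)) (CD.of_compact (hB n))
  exact hcd.lindelofSigma

end

end Pool.Agent.H60R3.Gul
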