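import Pool.Agent.H60R3.Gul.Chain

/-!
# The inductive step and the existence of separating labelled families
-/

universe u

open Set Filter Topology Cardinal

namespace Pool.Agent.H60R3.Gul

variable {X : Type u} [TopologicalSpace X]

lemma fam_countable {D : Dat X} {S : Set X} (hS : D.Good S) (hc : S.Countable) :
    Nonempty (Fam D S) := by
  have hJ : (D.JJ S).Countable := by
    have hsub : D.JJ S ⊆ ⋃ a ∈ S, ⋃ b ∈ S, {j | (a, b) ∈ D.V j} := by
      rintro j ⟨a, ha, b, hb, hab⟩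
      simp only [mem_iUnion]
      exact ⟨a, ha, b, hb, hab⟩
    refine Set.Countable.mono hsub ?_
    exact hc.biUnion fun a _ => hc.biUnion fun b _ => D.countable_at (a, b)
  let _ := hJ.toEncodable
  refine ⟨{ I := ↥(D.JJ S), g := fun j => D.h j, g_cont := fun j => D.h_cont j,
            tag := fun j => Encodable.encode j, lab := fun _ _ => D.j0,
            fin := ?_, sat := ?_, sep := ?_ }⟩
  · intro x t L
    refine ⟨∅, by simp, Set.Subsingleton.finite ?_⟩
    rintro i ⟨h1, -⟩ j ⟨h2, -⟩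
    exact Encodable.encode_injective (h1.trans h2.symm)
  · intro i x
    exact hS.h_r x i.2
  · intro u hu v hv h
    exact D.eq_of_h hu hv fun i hi => h ⟨i, hi⟩

lemma Fam.basic [CompactSpace X] {D : Dat X} {S : Set X} (hS : D.Good S) (𝓕 : Fam D S)
    {O : Set X} (hO : IsOpen O) (hsat : ∀ y, D.r S y ∈ O ↔ y ∈ O) :
    ∀ x ∈ O, ∃ E : Finset 𝓕.I, ∃ ε > (0 : ℝ), ∀ y,
      (∀ e ∈ E, |𝓕.g e y - 𝓕.g e x| < ε) → y ∈ O := by
  intro x hx
  obtain ⟨E, ε, hε, h⟩ := basic_of_sep 𝓕.g 𝓕.g_cont (K := closure S) (O := O)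
    (x := D.r S x) isClosed_closure hO ((hsat x).2 hx)
    (fun z hz h => 𝓕.sep z hz _ (hS.r_mem x) h)
  refine ⟨E, ε, hε, fun y hy => (hsat y).1 (h _ (hS.r_mem y) fun e he => ?_)⟩
  rw [𝓕.sat, 𝓕.sat]
  exact hy e he

theorem step [CompactSpace X] [T2Space X] {D : Dat X} {O : Type u} [LinearOrder O]
    [WellFoundedLT O] [Nonempty O] (c : Ch D O) {S : Set X} (hS : D.Good S)
    (hsub : ∀ d, c.Tle d ⊆ S) (hcov : ∀ x ∈ S, ∃ d, x ∈ c.Tle d)
    (F0 : Fam D c.T0) (Fd : ∀ d, Fam D (c.Tle d)) : Nonempty (Fam D S) := by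
  classical
  let FS : ∀ σ : List D.J, Fam D (c.Dset σ) := fun σ => match σ with
    | [] => F0
    | (j :: _) => Fd (c.birth j)
  have hDS : ∀ σ, c.Dset σ ⊆ S := by
    intro σ
    cases σ with
    | nil => exact (c.sub0 (Classical.arbitrary O)).trans (hsub _)
    | cons j σ => exact hsub _
  have href := fun σ : List D.J => LF.refine (FS σ).toLF D.j0 {c.G σ} (by
    intro A hA
    rw [mem_singleton_iff] at hA
    subst hA
    exact (FS σ).basic (c.good_Dset σ) (c.isOpen_G σ)
      (c.G_sat (c.good_Dset σ) σ subset_rfl))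
  choose 𝓖 h𝓖1 h𝓖2 h𝓖3 using href
  have hG1 : ∀ σ κ y, (𝓖 σ).g κ y ≠ 0 → y ∈ c.G σ := by
    intro σ κ y hy
    obtain ⟨A, hA, h⟩ := h𝓖1 σ κ
    rw [mem_singleton_iff] at hA
    subst hA
    exact h y hy
  have hG2 : ∀ σ x, x ∈ c.G σ → ∃ κ, (𝓖 σ).g κ x ≠ 0 := fun σ x hx => h𝓖2 σ _ rfl x hx
  let I := Σ σ : List D.J, (𝓖 σ).I × Option (FS σ).I
  let g2 : ∀ σ : List D.J, Option (FS σ).I → X → ℝ := fun σ o x =>
    match o with
    | none => 1
    | some i => (FS σ).g i x
  let g : I → X → ℝ := fun i x => (𝓖 i.1).g i.2.1 x * g2 i.1 i.2.2 x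
  let code : I → ℕ × ℕ × Option ℕ := fun i =>
    (i.1.length, (𝓖 i.1).tag i.2.1, i.2.2.map (FS i.1).tag)
  let lab : I → ℕ → D.J := fun i n =>
    if (Nat.unpair n).1 = 0 then Ch.labσ D i.1 (Nat.unpair n).2
    else if (Nat.unpair n).1 = 1 then (𝓖 i.1).lab i.2.1 (Nat.unpair n).2
    else (i.2.2.map fun k => (FS i.1).lab k (Nat.unpair n).2).getD D.j0
  have hlab0 : ∀ i k, lab i (Nat.pair 0 k) = Ch.labσ D i.1 k := by
    intro i k; simp [lab]
  have hlab1 : ∀ i k, lab i (Nat.pair 1 k) = (𝓖 i.1).lab i.2.1 k := by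
    intro i k; simp [lab]
  have hlab2 : ∀ i k, lab i (Nat.pair 2 k) =
      (i.2.2.map fun l => (FS i.1).lab l k).getD D.j0 := by
    intro i k; simp [lab]
  have hsatF : ∀ σ i x, (FS σ).g i (D.r S x) = (FS σ).g i x := by
    intro σ i x
    rw [← (FS σ).sat i (D.r S x), (c.good_Dset σ).r_r hS (hDS σ), (FS σ).sat]
  refine ⟨{ I := I, g := g, g_cont := ?_, tag := fun i => Encodable.encode (code i),
            lab := lab, fin := ?_, sat := ?_, sep := ?_ }⟩
  · rintro ⟨σ, κ, o⟩
    refine ((𝓖 σ).g_cont κ).mul ?_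
    cases o with
    | none => exact continuous_const
    | some i => exact (FS σ).g_cont i
  · intro x t L
    by_cases hne : ∃ i0 : I, Encodable.encode (code i0) = t
    swap
    · refine ⟨∅, by simp, ?_⟩
      refine Set.Finite.subset Set.finite_empty ?_
      rintro κ ⟨h1, -⟩
      exact hne ⟨κ, h1⟩
    obtain ⟨i0, hi0⟩ := hne
    obtain ⟨F', -, hF1, hF2⟩ := c.codes_fin x (code i0).1 (fun k => L (Nat.pair 0 k))
    have hA := fun σ => (𝓖 σ).fin x (code i0).2.1 (fun k => L (Nat.pair 1 k))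
    choose A hA1 hA2 using hA
    have hB := fun σ => (FS σ).fin x ((code i0).2.2.getD 0) (fun k => L (Nat.pair 2 k))
    choose B hB1 hB2 using hB
    refine ⟨(F'.image fun p => (Nat.pair 0 p.1, p.2)) ∪ hF2.toFinset.biUnion fun σ =>
      ((A σ).image fun p => (Nat.pair 1 p.1, p.2)) ∪
        ((B σ).image fun p => (Nat.pair 2 p.1, p.2)), ?_, ?_⟩
    · intro q hq
      simp only [Finset.mem_union, Finset.mem_biUnion, Finset.mem_image] at hq
      rcases hq with ⟨p, hp, rfl⟩ | ⟨σ, -, ⟨p, hp, rfl⟩ | ⟨p, hp, rfl⟩⟩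
      · exact hF1 p hp
      · exact hA1 σ p hp
      · exact hB1 σ p hp
    · refine Set.Finite.subset (Set.Finite.biUnion hF2 fun σ _ =>
        ((hA2 σ).prod (((hB2 σ).image some).insert none)).image
          fun q => (⟨σ, q⟩ : I)) ?_
      rintro ⟨σ, κ, o⟩ ⟨h1, h2, h3⟩
      have hcode : code ⟨σ, κ, o⟩ = code i0 := Encodable.encode_injective (h1.trans hi0.symm)
      have h4 := mul_ne_zero_iff.1 h3
      have hσ : σ ∈ {σ : List D.J | σ.length = (code i0).1 ∧
          (∀ p ∈ F', p.2 ∈ D.N (Ch.labσ D σ p.1)) ∧ x ∈ c.G σ} := by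
        refine ⟨congrArg (fun c => c.1) hcode, fun p hp => ?_, hG1 σ κ x h4.1⟩
        have := h2 (Nat.pair 0 p.1, p.2) (by
          simp only [Finset.mem_union, Finset.mem_image]
          exact Or.inl ⟨p, hp, rfl⟩)
        rw [hlab0] at this
        exact this
      simp only [mem_iUnion]
      refine ⟨σ, hσ, (κ, o), ⟨?_, ?_⟩, rfl⟩
      · refine ⟨congrArg (fun c => c.2.1) hcode, fun p hp => ?_, h4.1⟩
        have := h2 (Nat.pair 1 p.1, p.2) (by
          simp only [Finset.mem_union, Finset.mem_biUnion, Finset.mem_image]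
          exact Or.inr ⟨σ, hF2.mem_toFinset.2 hσ, Or.inl ⟨p, hp, rfl⟩⟩)
        rw [hlab1] at this
        exact this
      · cases ho : o with
        | none => exact Set.mem_insert _ _
        | some i =>
          subst ho
          refine Set.mem_insert_of_mem _ ⟨i, ⟨?_, ?_, h4.2⟩, rfl⟩
          · have : some ((FS σ).tag i) = (code i0).2.2 := congrArg (fun c => c.2.2) hcode
            rw [← this]; rfl
          · intro p hp
            have := h2 (Nat.pair 2 p.1, p.2) (by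
              simp only [Finset.mem_union, Finset.mem_biUnion, Finset.mem_image]
              exact Or.inr ⟨σ, hF2.mem_toFinset.2 hσ, Or.inr ⟨p, hp, rfl⟩⟩)
            rw [hlab2] at this
            exact this
  · rintro ⟨σ, κ, o⟩ x
    have h1 : (𝓖 σ).g κ (D.r S x) = (𝓖 σ).g κ x := h𝓖3 σ (D.r S) (hsatF σ) κ x
    change (𝓖 σ).g κ (D.r S x) * g2 σ o (D.r S x) = (𝓖 σ).g κ x * g2 σ o x
    rw [h1]
    cases o with
    | none => rfl
    | some i => exact congrArg _ (hsatF σ i x)
  · intro u hu v hv huv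
    -- the key: for all codes, values agree
    have key : ∀ σ, u ∈ c.G σ → D.r (c.Dset σ) u = D.r (c.Dset σ) v := by
      intro σ hσ
      obtain ⟨κ, hκ⟩ := hG2 σ u hσ
      refine (FS σ).sep _ ((c.good_Dset σ).r_mem u) _ ((c.good_Dset σ).r_mem v) fun i => ?_
      rw [(FS σ).sat, (FS σ).sat]
      have h1 := huv ⟨σ, κ, none⟩
      have h2 := huv ⟨σ, κ, some i⟩
      change (𝓖 σ).g κ u * 1 = (𝓖 σ).g κ v * 1 at h1
      change (𝓖 σ).g κ u * (FS σ).g i u = (𝓖 σ).g κ v * (FS σ).g i v at h2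
      rw [mul_one, mul_one] at h1
      rw [← h1] at h2
      exact mul_left_cancel₀ hκ h2
    have key' : ∀ σ, v ∈ c.G σ → D.r (c.Dset σ) u = D.r (c.Dset σ) v := by
      intro σ hσ
      obtain ⟨κ, hκ⟩ := hG2 σ v hσ
      refine (FS σ).sep _ ((c.good_Dset σ).r_mem u) _ ((c.good_Dset σ).r_mem v) fun i => ?_
      rw [(FS σ).sat, (FS σ).sat]
      have h1 := huv ⟨σ, κ, none⟩
      have h2 := huv ⟨σ, κ, some i⟩
      change (𝓖 σ).g κ u * 1 = (𝓖 σ).g κ v * 1 at h1
      change (𝓖 σ).g κ u * (FS σ).g i u = (𝓖 σ).g κ v * (FS σ).g i v at h2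
      rw [mul_one, mul_one] at h1
      rw [h1] at h2
      exact mul_left_cancel₀ hκ h2
    have h0 : D.r c.T0 u = D.r c.T0 v := key [] (mem_univ _)
    by_contra hne
    have hex : ∃ d, D.r (c.Tle d) u ≠ D.r (c.Tle d) v := by
      obtain ⟨j, hj⟩ := D.cover u v hne
      obtain ⟨a, ha, b, hb, hab⟩ := D.mem_JJ_of_closure hu hv hj
      obtain ⟨d1, hd1⟩ := hcov a ha
      obtain ⟨d2, hd2⟩ := hcov b hb
      refine ⟨max d1 d2, fun heq => ?_⟩
      have hjd : j ∈ D.JJ (c.Tle (max d1 d2)) :=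
        ⟨a, c.mono _ _ (le_max_left _ _) hd1, b, c.mono _ _ (le_max_right _ _) hd2, hab⟩
      have h1 := (c.goodle (max d1 d2)).h_r u hjd
      have h2 := (c.goodle (max d1 d2)).h_r v hjd
      have h3 := D.h_spec j u v hj
      rw [heq, h2, h3.1, h3.2] at h1
      exact one_ne_zero h1
    let d := wellFounded_lt.min {d | D.r (c.Tle d) u ≠ D.r (c.Tle d) v} hex
    have hd : D.r (c.Tle d) u ≠ D.r (c.Tle d) v :=
      wellFounded_lt.min_mem {d | D.r (c.Tle d) u ≠ D.r (c.Tle d) v} hex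
    have hmin : ∀ e, e < d → D.r (c.Tle e) u = D.r (c.Tle e) v := by
      intro e he
      by_contra hcon
      exact wellFounded_lt.not_lt_min {d | D.r (c.Tle d) u ≠ D.r (c.Tle d) v} hcon he
    have hlt : D.r (c.Tlt d) u = D.r (c.Tlt d) v := by
      by_cases hemp : ∃ e, e < d
      · refine (c.goodlt d).r_eq ((c.goodlt d).r_mem v) fun j hj => ?_
        rw [(c.goodlt d).h_r v hj]
        obtain ⟨a, ha, b, hb, hab⟩ := hj
        obtain ⟨e1, he1, ha1⟩ := c.lt_cov d a ha hemp
        obtain ⟨e2, he2, hb2⟩ := c.lt_cov d b hb hemp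
        have hjd : j ∈ D.JJ (c.Tle (max e1 e2)) :=
          ⟨a, c.mono _ _ (le_max_left _ _) ha1, b, c.mono _ _ (le_max_right _ _) hb2, hab⟩
        have h1 := (c.goodle (max e1 e2)).h_r u hjd
        have h2 := (c.goodle (max e1 e2)).h_r v hjd
        rw [← h1, ← h2, hmin _ (max_lt he1 he2)]
      · rw [c.lt_bot d (by push Not at hemp ⊢; exact hemp)]
        exact h0
    by_cases hu' : D.r (c.Tlt d) u = D.r (c.Tle d) u
    · have hv' : D.r (c.Tlt d) v ≠ D.r (c.Tle d) v := by
        rw [← hlt, hu']; exact hd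
      obtain ⟨σ, hσ1, hσ2⟩ := c.exists_code v d hv'
      have := key' σ hσ1
      rw [hσ2] at this
      exact hd this
    · obtain ⟨σ, hσ1, hσ2⟩ := c.exists_code u d hu'
      have := key σ hσ1
      rw [hσ2] at this
      exact hd this

/-- Every set closed under the closing-off operator carries a labelled family. -/
theorem exists_fam [CompactSpace X] [T2Space X] [Nonempty X] (D : Dat X) :
    ∀ (κ : Cardinal.{u}) (S : Set X), #S = κ → D.Cl S = S → Nonempty (Fam D S) := by
  intro κ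
  induction κ using WellFoundedLT.induction with
  | ind κ ih =>
  intro S hκ hS
  have hgood : D.Good S := by rw [← hS]; exact D.Cl_good S
  by_cases hc : #S ≤ ℵ₀
  · exact fam_countable hgood (Cardinal.mk_le_aleph0_iff.1 hc)
  push Not at hc
  let O := (#S).ord.ToType
  have hO : #O = #S := by simp [O]
  obtain ⟨f⟩ := Cardinal.eq.1 hO
  have hIio : ∀ d : O, #(Iio d) < #S := fun d => by simpa [O] using Cardinal.mk_Iio_lt d
  have : Nonempty O := by
    rw [← Cardinal.mk_ne_zero_iff, hO]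
    intro h0
    rw [h0] at hc
    exact absurd hc (by simp)
  let T0 := D.Cl ∅
  let Tle : O → Set X := fun d => D.Cl ((fun e => (f e : X)) '' Iic d)
  let Tlt : O → Set X := fun d => D.Cl ((fun e => (f e : X)) '' Iio d)
  have hTle_card : ∀ d, #(Tle d) < #S := by
    intro d
    refine (D.mk_Cl_le _).trans_lt (max_lt hc ?_)
    refine (Cardinal.mk_image_le).trans_lt ?_
    have h1 : Iic d = insert d (Iio d) := by
      ext e; simp [le_iff_lt_or_eq, or_comm]
    rw [h1]
    refine (Cardinal.mk_insert_le).trans_lt ?_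
    exact Cardinal.add_lt_of_lt hc.le (hIio d) (Cardinal.one_lt_aleph0.trans hc)
  have hT0_card : #T0 < #S := by
    refine (D.mk_Cl_le _).trans_lt (max_lt hc ?_)
    simp only [Cardinal.mk_eq_zero]
    exact lt_of_le_of_lt zero_le hc
  have hImS : ∀ A : Set O, (fun e => (f e : X)) '' A ⊆ S := by
    rintro A _ ⟨e, -, rfl⟩
    exact (f e).2
  let c : Ch D O :=
    { T0 := T0
      Tle := Tle
      Tlt := Tlt
      good0 := D.Cl_good _
      goodle := fun d => D.Cl_good _
      goodlt := fun d => D.Cl_good _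
      sub0 := fun d => D.Cl_mono (empty_subset _)
      mono := fun e d hed => D.Cl_mono (image_mono (Iic_subset_Iic.2 hed))
      le_lt := fun e d hed => D.Cl_mono (image_mono fun a ha => lt_of_le_of_lt ha hed)
      lt_le := fun d => D.Cl_mono (image_mono Iio_subset_Iic_self)
      lt_bot := by
        intro d hd
        have : Iio d = ∅ := by
          ext e; simp only [mem_Iio, mem_empty_iff_false, iff_false]; exact hd e
        change D.Cl ((fun e => (f e : X)) '' Iio d) = D.Cl ∅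
        rw [this, image_empty]
      lt_cov := by
        intro d x hx hemp
        have : Nonempty {e // e < d} := ⟨⟨hemp.choose, hemp.choose_spec⟩⟩
        have h1 : (fun e => (f e : X)) '' Iio d =
            ⋃ e : {e // e < d}, (fun e => (f e : X)) '' Iic e.1 := by
          ext y
          simp only [mem_iUnion]
          constructor
          · rintro ⟨e, he, rfl⟩
            exact ⟨⟨e, he⟩, e, le_refl e, rfl⟩
          · rintro ⟨⟨e, he⟩, e', he', rfl⟩
            exact ⟨e', lt_of_le_of_lt he' he, rfl⟩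
        change x ∈ D.Cl ((fun e => (f e : X)) '' Iio d) at hx
        rw [h1] at hx
        obtain ⟨⟨e, he⟩, h2⟩ := D.Cl_directed (by
          intro a b
          rcases le_total a.1 b.1 with h | h
          · exact ⟨b, image_mono (Iic_subset_Iic.2 h), subset_rfl⟩
          · exact ⟨a, subset_rfl, image_mono (Iic_subset_Iic.2 h)⟩) hx
        exact ⟨e, he, h2⟩ }
  have F0 : Fam D c.T0 :=
    (ih #T0 (hκ ▸ hT0_card) T0 rfl (D.Cl_Cl _)).some
  have Fd : ∀ d, Fam D (c.Tle d) := fun d =>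
    (ih #(Tle d) (hκ ▸ hTle_card d) (Tle d) rfl (D.Cl_Cl _)).some
  refine step c hgood ?_ ?_ F0 Fd
  · intro d
    have := D.Cl_mono (hImS (Iic d))
    rw [hS] at this
    exact this
  · intro x hx
    refine ⟨f.symm ⟨x, hx⟩, D.subset_Cl _ ⟨f.symm ⟨x, hx⟩, mem_Iic.2 le_rfl, by simp⟩⟩

theorem exists_fam_univ [CompactSpace X] [T2Space X] [Nonempty X] (D : Dat X) :
    ∃ 𝓕 : LF.{u, u} X D.N, ∀ u v : X, (∀ i, 𝓕.g i u = 𝓕.g i v) → u = v := by
  have h1 : D.Cl Set.univ = Set.univ := univ_subset_iff.1 (D.subset_Cl Set.univ)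
  obtain ⟨𝓕⟩ := exists_fam D _ Set.univ rfl h1
  exact ⟨𝓕.toLF, fun u v h => 𝓕.sep u (by simp) v (by simp) h⟩

end Pool.Agent.H60R3.Gul
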